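import Pool.Agent.H37.LT.PrA

/-!
# Module Gain: the `L²` bound of the gain term

* `rot`: `swapd_preserving` (H25/Kin/Sph): `(V,σ) ↦ (|V|σ, V/|V|)` preserves `volume ⊗ surf`. With `X(V,σ) = wg V · R((1/2)(|V|σ' - V))`: `X(swapd(V,σ)) = wg(|V|σ) R((1/2)(|V|σ' - |V|σ)) = wg V R(..)` for `nsq σ = 1` (`len (|V|σ) = |V|`, `surf_ae`).
* `Ac U` for `U` continuous, integrable, `|U| ≤ B`: continuous and bounded by `B ∫|U|` (`Ac_cont`: dominated convergence, `|U(m) U(m+ζ)| ≤ B |U m|`).
* `gain`. `T = ∫∫ k(v)k(w) S(v,w) dw dv`, `S(v,w) = ∫ U(v') dσ`. Cauchy-Schwarz: `T² ≤ (∫∫ k(v)²k(w)²/wg(v-w)) (∫∫ wg(v-w) S(v,w)²)`; first factor `≤ K⁴ I`, `I = ∫∫ exp(-(3/2)(nsq v + nsq w))` because `1/wg(v-w) = exp(nsq(v-w)/4) ≤ exp((nsq v+nsq w)/2)` and `gau²= exp(-2 nsq)`.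
  Second factor: `v' = w + (1/2)(V + |V|σ)`, `V = v - w` (shear `(v,w) ↦ (v-w,w)`, measure preserving); `S² = ∫∫ U(w + (V+|V|σ)/2) U(w + (V+|V|σ')/2) dσ dσ'`; integrate over `w` first: `∫ U(w + x) U(w + y) dw = Ac U (y - x)`, `y - x = |V|(σ'-σ)/2`. So it is `∫_σ' ∫_(V,σ) wg V Ac U ((1/2)(|V|σ' - |V|σ)) = ∫_σ' ∫_(V,σ) wg V Ac U((1/2)(|V|σ' - V))` (`rot`) `= s₀ ∫_(V,σ') wg V Ac U((1/2)(|V|σ' - V))`, `s₀ = (surf d).real univ`. `C = K⁴ I s₀`. Integrability everywhere: `|U| ≤ B`, `∫ |U| < ∞`, `wg` integrable, `surf` finite. (If you like: prove the inequality first for general nonnegative measurable functions with lintegrals.)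
-/

set_option autoImplicit false

open MeasureTheory Set Filter Topology Pool.Agent.H25.Kin Pool.Agent.H37.LT
open Pool.Agent.H15.AV (gau UNice)

namespace Pool.Agent.H37.SA

variable {d : ℕ}

private lemma Gain_wgc : Continuous (wg : Vec d → ℝ) := by
  have h : Continuous fun v : Vec d => -(nsq v / 4) := (continuous_sq.div_const 4).neg
  exact Real.continuous_exp.comp h

private lemma Gain_wg0 (v : Vec d) : 0 ≤ wg v := (Real.exp_pos _).le

lemma wg_int (d : ℕ) : Integrable (wg : Vec d → ℝ) := by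
  have h : (wg : Vec d → ℝ) = fun v : Vec d => ∏ i, Real.exp (-(1 / 4) * (v i) ^ 2) := by
    funext v
    unfold wg nsq
    rw [← Real.exp_sum]
    congr 1
    rw [Finset.sum_div, ← Finset.sum_neg_distrib]
    exact Finset.sum_congr rfl fun i _ => by ring
  rw [h]
  exact MeasureTheory.Integrable.fintype_prod
    (f := fun (_ : Fin d) (x : ℝ) => Real.exp (-(1 / 4) * x ^ 2))
    (fun i => integrable_exp_neg_mul_sq (by norm_num))

private lemma Gain_ae : ∀ᵐ q ∂((volume : Measure (Vec d)).prod (surf d)), nsq q.2 = 1 := by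
  refine (Measure.ae_prod_iff_ae_ae ?_).2 (Eventually.of_forall fun w => surf_ae)
  exact (isClosed_eq (continuous_sq.comp continuous_snd) continuous_const).measurableSet

private lemma Gain_lenc {α : Type*} [TopologicalSpace α] {g : α → Vec d} (hg : Continuous g) :
    Continuous fun x => len (g x) := continuous_len.comp hg

theorem rot (hd : 1 ≤ d) {R : Vec d → ℝ} (hR : Continuous R) {B : ℝ} (hB : ∀ ζ, |R ζ| ≤ B)
    (σ' : Vec d) :
    ∫ q : Vec d × Vec d, wg q.1 * R ((1 / 2 : ℝ) • (len q.1 • σ' - len q.1 • q.2))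
      ∂((volume : Measure (Vec d)).prod (surf d)) =
    ∫ q : Vec d × Vec d, wg q.1 * R ((1 / 2 : ℝ) • (len q.1 • σ' - q.1))
      ∂((volume : Measure (Vec d)).prod (surf d)) := by
  have hX : Continuous fun q : Vec d × Vec d =>
      wg q.1 * R ((1 / 2 : ℝ) • (len q.1 • σ' - q.1)) := by
    have h1 : Continuous fun q : Vec d × Vec d => len q.1 := Gain_lenc continuous_fst
    refine (Gain_wgc.comp continuous_fst).mul (hR.comp ?_)
    exact ((h1.smul continuous_const).sub continuous_fst).const_smul (1 / 2 : ℝ)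
  have hmp := swapd_preserving (d := d) hd
  have h1 := integral_map (f := fun q : Vec d × Vec d =>
    wg q.1 * R ((1 / 2 : ℝ) • (len q.1 • σ' - q.1))) hmp.measurable.aemeasurable
    (μ := (volume : Measure (Vec d)).prod (surf d)) hX.aestronglyMeasurable
  rw [hmp.map_eq] at h1
  rw [h1]
  refine integral_congr_ae ?_
  filter_upwards [Gain_ae] with q hq
  have e1 : len q.2 = 1 := by
    unfold len
    rw [hq, Real.sqrt_one]
  have e2 : len (swapd q).1 = len q.1 := by
    unfold swapd
    simp only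
    rw [len_smul (len_nonneg _), e1, mul_one]
  have e3 : wg (swapd q).1 = wg q.1 := by
    unfold wg
    rw [← len_sq, e2, len_sq]
  rw [e2, e3]
  rfl

theorem Ac_cont {U : Vec d → ℝ} (hU : Continuous U) (hi : Integrable U) {B : ℝ}
    (hB : ∀ v, |U v| ≤ B) : Continuous (Ac U) ∧ ∀ ζ, |Ac U ζ| ≤ B * ∫ v, |U v| := by
  constructor
  · refine continuous_of_dominated (F := fun (ζ m : Vec d) => U m * U (m + ζ))
      (bound := fun m => |U m| * B) ?_ ?_ ?_ ?_
    · intro ζ
      exact (hU.mul (hU.comp (continuous_id.add continuous_const))).aestronglyMeasurable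
    · intro ζ
      exact Eventually.of_forall fun m => by
        rw [Real.norm_eq_abs, abs_mul]
        exact mul_le_mul_of_nonneg_left (hB _) (abs_nonneg _)
    · exact hi.abs.mul_const B
    · exact Eventually.of_forall fun m =>
        continuous_const.mul (hU.comp (continuous_const.add continuous_id))
  · intro ζ
    unfold Ac
    rw [← Real.norm_eq_abs]
    refine (norm_integral_le_of_norm_le (hi.abs.const_mul B) (Eventually.of_forall fun m => ?_)).trans
      (le_of_eq (integral_const_mul _ _))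
    rw [Real.norm_eq_abs, abs_mul, mul_comm B]
    exact mul_le_mul_of_nonneg_left (hB _) (abs_nonneg _)

private lemma Gain_cs {α : Type*} [MeasurableSpace α] {μ : Measure α} {a b : α → ℝ}
    (ha : Integrable (fun x => a x ^ 2) μ) (hb : Integrable (fun x => b x ^ 2) μ)
    (hab : Integrable (fun x => a x * b x) μ) :
    (∫ x, a x * b x ∂μ) ^ 2 ≤ (∫ x, a x ^ 2 ∂μ) * ∫ x, b x ^ 2 ∂μ := by
  have h : ∀ t : ℝ, 0 ≤ (∫ x, a x ^ 2 ∂μ) * (t * t) + (2 * ∫ x, a x * b x ∂μ) * t +
      ∫ x, b x ^ 2 ∂μ := by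
    intro t
    have h1 : 0 ≤ ∫ x, (a x * t + b x) ^ 2 ∂μ := integral_nonneg fun x => sq_nonneg _
    have h2 : ∫ x, (a x * t + b x) ^ 2 ∂μ =
        ∫ x, ((t * t * a x ^ 2 + 2 * t * (a x * b x)) + b x ^ 2) ∂μ := by
      congr 1
      funext x
      ring
    have h3 : ∫ x, ((t * t * a x ^ 2 + 2 * t * (a x * b x)) + b x ^ 2) ∂μ =
        (∫ x, (t * t * a x ^ 2 + 2 * t * (a x * b x)) ∂μ) + ∫ x, b x ^ 2 ∂μ :=
      integral_add ((ha.const_mul _).add (hab.const_mul _)) hb
    have h4 : ∫ x, (t * t * a x ^ 2 + 2 * t * (a x * b x)) ∂μ =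
        (∫ x, t * t * a x ^ 2 ∂μ) + ∫ x, 2 * t * (a x * b x) ∂μ :=
      integral_add (ha.const_mul _) (hab.const_mul _)
    rw [h2, h3, h4, integral_const_mul, integral_const_mul] at h1
    linarith
  have h5 := discrim_le_zero h
  unfold discrim at h5
  nlinarith

private lemma Gain_sl {U : Vec d → ℝ} (hU : Continuous U) (hi : Integrable U)
    {x : Vec d → Vec d} (hx : Continuous x) :
    Integrable (fun q : Vec d × Vec d => wg q.1 * |U (q.2 + x q.1)|)
      ((volume : Measure (Vec d)).prod volume) ∧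
    ∫ q : Vec d × Vec d, wg q.1 * |U (q.2 + x q.1)| ∂((volume : Measure (Vec d)).prod volume) =
      (∫ v : Vec d, wg v) * ∫ v, |U v| := by
  have hc : Continuous fun q : Vec d × Vec d => wg q.1 * |U (q.2 + x q.1)| :=
    (Gain_wgc.comp continuous_fst).mul
      (hU.comp (continuous_snd.add (hx.comp continuous_fst))).abs
  have hin : ∀ V : Vec d, Integrable (fun w => wg V * |U (w + x V)|) := fun V =>
    ((hi.abs.comp_add_right (x V)).const_mul _)
  have hval : ∀ V : Vec d, ∫ w, wg V * |U (w + x V)| = wg V * ∫ v, |U v| := fun V => by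
    rw [integral_const_mul, integral_add_right_eq_self (fun w => |U w|)]
  have hI : Integrable (fun q : Vec d × Vec d => wg q.1 * |U (q.2 + x q.1)|)
      ((volume : Measure (Vec d)).prod volume) := by
    rw [integrable_prod_iff hc.aestronglyMeasurable]
    refine ⟨Eventually.of_forall hin, ?_⟩
    have h1 : (fun V : Vec d => ∫ w, ‖wg V * |U (w + x V)|‖) = fun V => wg V * ∫ v, |U v| := by
      funext V
      rw [← hval V]
      congr 1
      funext w
      rw [Real.norm_eq_abs, abs_of_nonneg (mul_nonneg (Gain_wg0 V) (abs_nonneg _))]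
    rw [h1]
    exact (wg_int d).mul_const _
  refine ⟨hI, ?_⟩
  rw [integral_prod _ hI]
  calc ∫ V : Vec d, ∫ w, wg V * |U (w + x V)| = ∫ V : Vec d, wg V * ∫ v, |U v| := by
        congr 1
        funext V
        exact hval V
    _ = _ := integral_mul_const _ _

/-- the shift of the collision in the moving frame -/
private noncomputable def Gain_x (V σ : Vec d) : Vec d := (1 / 2 : ℝ) • (V + len V • σ)

private lemma Gain_xc : Continuous fun q : Vec d × Vec d => Gain_x q.1 q.2 := by
  have h1 : Continuous fun q : Vec d × Vec d => len q.1 := Gain_lenc continuous_fst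
  exact (continuous_fst.add (h1.smul continuous_snd)).const_smul (1 / 2 : ℝ)

private noncomputable def Gain_G (U : Vec d → ℝ) (z : (Vec d × Vec d) × (Vec d × Vec d)) : ℝ :=
  wg z.1.1 * (U (z.1.2 + Gain_x z.1.1 z.2.1) * U (z.1.2 + Gain_x z.1.1 z.2.2))

private lemma Gain_Gc {U : Vec d → ℝ} (hU : Continuous U) : Continuous (Gain_G U) := by
  have h1 : Continuous fun z : (Vec d × Vec d) × (Vec d × Vec d) => Gain_x z.1.1 z.2.1 :=
    Gain_xc.comp (by fun_prop : Continuous fun z : (Vec d × Vec d) × (Vec d × Vec d) =>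
      ((z.1.1, z.2.1) : Vec d × Vec d))
  have h2 : Continuous fun z : (Vec d × Vec d) × (Vec d × Vec d) => Gain_x z.1.1 z.2.2 :=
    Gain_xc.comp (by fun_prop : Continuous fun z : (Vec d × Vec d) × (Vec d × Vec d) =>
      ((z.1.1, z.2.2) : Vec d × Vec d))
  have h3 : Continuous fun z : (Vec d × Vec d) × (Vec d × Vec d) => z.1.2 := by fun_prop
  exact (Gain_wgc.comp (by fun_prop : Continuous fun z : (Vec d × Vec d) × (Vec d × Vec d) =>
    z.1.1)).mul ((hU.comp (h3.add h1)).mul (hU.comp (h3.add h2)))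

private lemma Gain_Gint {U : Vec d → ℝ} (hU : Continuous U) (hi : Integrable U) {B : ℝ}
    (hB : ∀ v, |U v| ≤ B) :
    Integrable (Gain_G U) (((volume : Measure (Vec d)).prod (volume : Measure (Vec d))).prod
      ((surf d).prod (surf d))) := by
  have hxs : ∀ σ : Vec d, Continuous fun V : Vec d => Gain_x V σ := fun σ =>
    Gain_xc.comp (by fun_prop : Continuous fun V : Vec d => ((V, σ) : Vec d × Vec d))
  have h1c : Continuous fun z : (Vec d × Vec d) × (Vec d × Vec d) =>
      wg z.1.1 * |U (z.1.2 + Gain_x z.1.1 z.2.1)| := by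
    have h1 : Continuous fun z : (Vec d × Vec d) × (Vec d × Vec d) => Gain_x z.1.1 z.2.1 :=
      Gain_xc.comp (by fun_prop : Continuous fun z : (Vec d × Vec d) × (Vec d × Vec d) =>
        ((z.1.1, z.2.1) : Vec d × Vec d))
    have h3 : Continuous fun z : (Vec d × Vec d) × (Vec d × Vec d) => z.1.2 := by fun_prop
    exact (Gain_wgc.comp (by fun_prop : Continuous fun z : (Vec d × Vec d) × (Vec d × Vec d) =>
      z.1.1)).mul (hU.comp (h3.add h1)).abs
  have h1 : Integrable (fun z : (Vec d × Vec d) × (Vec d × Vec d) =>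
      wg z.1.1 * |U (z.1.2 + Gain_x z.1.1 z.2.1)|)
      (((volume : Measure (Vec d)).prod (volume : Measure (Vec d))).prod
      ((surf d).prod (surf d))) := by
    rw [integrable_prod_iff' h1c.aestronglyMeasurable]
    refine ⟨Eventually.of_forall fun τ => (Gain_sl hU hi (hxs τ.1)).1, ?_⟩
    have h2 : (fun τ : Vec d × Vec d => ∫ q : Vec d × Vec d,
        ‖wg q.1 * |U (q.2 + Gain_x q.1 τ.1)|‖ ∂((volume : Measure (Vec d)).prod volume)) =
        fun _ => (∫ v : Vec d, wg v) * ∫ v, |U v| := by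
      funext τ
      rw [← (Gain_sl hU hi (hxs τ.1)).2]
      congr 1
      funext q
      rw [Real.norm_eq_abs, abs_of_nonneg (mul_nonneg (Gain_wg0 _) (abs_nonneg _))]
    rw [h2]
    exact integrable_const _
  refine (h1.mul_const B).mono' (Gain_Gc hU).aestronglyMeasurable
    (Eventually.of_forall fun z => ?_)
  unfold Gain_G
  rw [Real.norm_eq_abs, abs_mul, abs_mul, abs_of_nonneg (Gain_wg0 _), mul_assoc]
  exact mul_le_mul_of_nonneg_left (mul_le_mul_of_nonneg_left (hB _) (abs_nonneg _)) (Gain_wg0 _)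

/-- the angular average in the moving frame -/
private noncomputable def Gain_S (U : Vec d → ℝ) (q : Vec d × Vec d) : ℝ :=
  ∫ σ, U (q.2 + Gain_x q.1 σ) ∂(surf d)

private lemma Gain_in (U : Vec d → ℝ) (q : Vec d × Vec d) :
    ∫ τ, Gain_G U (q, τ) ∂((surf d).prod (surf d)) = wg q.1 * Gain_S U q ^ 2 := by
  have h1 : ∫ τ, Gain_G U (q, τ) ∂((surf d).prod (surf d)) =
      ∫ τ : Vec d × Vec d, wg q.1 * (U (q.2 + Gain_x q.1 τ.1) * U (q.2 + Gain_x q.1 τ.2))
        ∂((surf d).prod (surf d)) := rfl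
  rw [h1, integral_const_mul, integral_prod_mul (fun σ => U (q.2 + Gain_x q.1 σ))
    (fun σ => U (q.2 + Gain_x q.1 σ))]
  unfold Gain_S
  ring

private lemma Gain_b {U : Vec d → ℝ} (hU : Continuous U) (hi : Integrable U) {B : ℝ}
    (hB : ∀ v, |U v| ≤ B) :
    Integrable (fun q : Vec d × Vec d => wg q.1 * Gain_S U q ^ 2)
      ((volume : Measure (Vec d)).prod (volume : Measure (Vec d))) ∧
    ∫ q : Vec d × Vec d, wg q.1 * Gain_S U q ^ 2
      ∂((volume : Measure (Vec d)).prod (volume : Measure (Vec d))) =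
      ∫ z, Gain_G U z ∂(((volume : Measure (Vec d)).prod (volume : Measure (Vec d))).prod
        ((surf d).prod (surf d))) := by
  have h := Gain_Gint hU hi hB
  have h1 := h.integral_prod_left
  rw [integral_prod _ h]
  have e : (fun q : Vec d × Vec d => ∫ τ, Gain_G U (q, τ) ∂((surf d).prod (surf d))) =
      fun q => wg q.1 * Gain_S U q ^ 2 := by
    funext q
    exact Gain_in U q
  rw [e] at h1 ⊢
  exact ⟨h1, rfl⟩

private lemma Gain_Hi {X : Type*} [MeasurableSpace X] [TopologicalSpace X]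
    [OpensMeasurableSpace X] [SecondCountableTopology X] {ν : Measure X} [IsFiniteMeasure ν]
    {R : Vec d → ℝ} (hR : Continuous R) {D : ℝ} (hD : ∀ ζ, |R ζ| ≤ D)
    {y : Vec d × X → Vec d} (hy : Continuous y) :
    Integrable (fun q : Vec d × X => wg q.1 * R (y q)) ((volume : Measure (Vec d)).prod ν) := by
  have h1 : Integrable (fun q : Vec d × X => wg q.1 * D) ((volume : Measure (Vec d)).prod ν) :=
    (wg_int d).mul_prod (integrable_const D)
  refine h1.mono' ((Gain_wgc.comp continuous_fst).mul (hR.comp hy)).aestronglyMeasurable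
    (Eventually.of_forall fun q => ?_)
  rw [Real.norm_eq_abs, abs_mul, abs_of_nonneg (Gain_wg0 _)]
  exact mul_le_mul_of_nonneg_left (hD _) (Gain_wg0 _)

private lemma Gain_w (U : Vec d → ℝ) (x y : Vec d) :
    ∫ w, U (w + x) * U (w + y) = Ac U (y - x) := by
  have h := integral_add_right_eq_self (μ := (volume : Measure (Vec d)))
    (fun m => U m * U (m + (y - x))) x
  unfold Ac
  rw [← h]
  congr 1
  funext w
  rw [show w + x + (y - x) = w + y by abel]

private lemma Gain_slice {U : Vec d → ℝ} (hU : Continuous U) (hi : Integrable U) {B : ℝ}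
    (hB : ∀ v, |U v| ≤ B) (τ : Vec d × Vec d) :
    ∫ q, Gain_G U (q, τ) ∂((volume : Measure (Vec d)).prod (volume : Measure (Vec d))) =
      ∫ V : Vec d, wg V * Ac U ((1 / 2 : ℝ) • (len V • τ.2 - len V • τ.1)) := by
  have hxs : ∀ σ : Vec d, Continuous fun V : Vec d => Gain_x V σ := fun σ =>
    Gain_xc.comp (by fun_prop : Continuous fun V : Vec d => ((V, σ) : Vec d × Vec d))
  have hI : Integrable (fun q : Vec d × Vec d => Gain_G U (q, τ))
      ((volume : Measure (Vec d)).prod (volume : Measure (Vec d))) := by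
    refine ((Gain_sl hU hi (hxs τ.1)).1.mul_const B).mono'
      ((Gain_Gc hU).comp (by fun_prop : Continuous fun q : Vec d × Vec d =>
        ((q, τ) : (Vec d × Vec d) × (Vec d × Vec d)))).aestronglyMeasurable
      (Eventually.of_forall fun q => ?_)
    unfold Gain_G
    rw [Real.norm_eq_abs, abs_mul, abs_mul, abs_of_nonneg (Gain_wg0 _), mul_assoc]
    exact mul_le_mul_of_nonneg_left (mul_le_mul_of_nonneg_left (hB _) (abs_nonneg _)) (Gain_wg0 _)
  rw [integral_prod _ hI]
  congr 1
  funext V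
  have h1 : ∫ w : Vec d, Gain_G U ((V, w), τ) =
      ∫ w : Vec d, wg V * (U (w + Gain_x V τ.1) * U (w + Gain_x V τ.2)) := rfl
  rw [h1, integral_const_mul, Gain_w]
  congr 2
  unfold Gain_x
  rw [← smul_sub]
  congr 1
  abel

private lemma Gain_main (hd : 1 ≤ d) {U : Vec d → ℝ} (hU : Continuous U) (hi : Integrable U)
    {B : ℝ} (hB : ∀ v, |U v| ≤ B) :
    ∫ z, Gain_G U z ∂(((volume : Measure (Vec d)).prod (volume : Measure (Vec d))).prod
        ((surf d).prod (surf d))) =
      (surf d).real univ * ∫ q : Vec d × Vec d, wg q.1 * Ac U ((1 / 2 : ℝ) • (len q.1 • q.2 - q.1))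
          ∂((volume : Measure (Vec d)).prod (surf d)) := by
  obtain ⟨hAc, hAb⟩ := Ac_cont hU hi hB
  rw [integral_prod_symm _ (Gain_Gint hU hi hB)]
  have e1 : (fun τ : Vec d × Vec d => ∫ q, Gain_G U (q, τ)
      ∂((volume : Measure (Vec d)).prod (volume : Measure (Vec d)))) = fun τ =>
      ∫ V : Vec d, wg V * Ac U ((1 / 2 : ℝ) • (len V • τ.2 - len V • τ.1)) := by
    funext τ
    exact Gain_slice hU hi hB τ
  rw [e1]
  -- the function of three variables
  have h3 : Integrable (fun q : Vec d × (Vec d × Vec d) =>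
      wg q.1 * Ac U ((1 / 2 : ℝ) • (len q.1 • q.2.2 - len q.1 • q.2.1)))
      ((volume : Measure (Vec d)).prod ((surf d).prod (surf d))) := by
    refine Gain_Hi hAc hAb ?_
    have h1 : Continuous fun q : Vec d × (Vec d × Vec d) => len q.1 := Gain_lenc continuous_fst
    exact ((h1.smul (continuous_snd.comp continuous_snd)).sub
      (h1.smul (continuous_fst.comp continuous_snd))).const_smul (1 / 2 : ℝ)
  have h4 : Integrable (fun τ : Vec d × Vec d =>
      ∫ V : Vec d, wg V * Ac U ((1 / 2 : ℝ) • (len V • τ.2 - len V • τ.1)))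
      ((surf d).prod (surf d)) := h3.integral_prod_right
  rw [integral_prod_symm _ h4]
  have e2 : ∀ σ' : Vec d, ∫ σ, (∫ V : Vec d,
      wg V * Ac U ((1 / 2 : ℝ) • (len V • σ' - len V • σ))) ∂(surf d) =
      (surf d).real univ * ∫ V : Vec d, wg V * Ac U ((1 / 2 : ℝ) • (len V • σ' - V)) := by
    intro σ'
    have h5 : Integrable (fun q : Vec d × Vec d =>
        wg q.1 * Ac U ((1 / 2 : ℝ) • (len q.1 • σ' - len q.1 • q.2)))
        ((volume : Measure (Vec d)).prod (surf d)) := by
      refine Gain_Hi hAc hAb ?_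
      have h1 : Continuous fun q : Vec d × Vec d => len q.1 := Gain_lenc continuous_fst
      exact ((h1.smul continuous_const).sub (h1.smul continuous_snd)).const_smul (1 / 2 : ℝ)
    have h6 : Integrable (fun q : Vec d × Vec d =>
        wg q.1 * Ac U ((1 / 2 : ℝ) • (len q.1 • σ' - q.1)))
        ((volume : Measure (Vec d)).prod (surf d)) := by
      refine Gain_Hi hAc hAb ?_
      have h1 : Continuous fun q : Vec d × Vec d => len q.1 := Gain_lenc continuous_fst
      exact ((h1.smul continuous_const).sub continuous_fst).const_smul (1 / 2 : ℝ)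
    have h7 := integral_prod_symm _ h5
    have h8 := integral_prod _ h6
    calc ∫ σ, (∫ V : Vec d, wg V * Ac U ((1 / 2 : ℝ) • (len V • σ' - len V • σ))) ∂(surf d)
        = ∫ q : Vec d × Vec d, wg q.1 * Ac U ((1 / 2 : ℝ) • (len q.1 • σ' - len q.1 • q.2))
            ∂((volume : Measure (Vec d)).prod (surf d)) := h7.symm
      _ = ∫ q : Vec d × Vec d, wg q.1 * Ac U ((1 / 2 : ℝ) • (len q.1 • σ' - q.1))
            ∂((volume : Measure (Vec d)).prod (surf d)) := rot hd hAc hAb σ'
      _ = ∫ V : Vec d, ∫ _σ, wg V * Ac U ((1 / 2 : ℝ) • (len V • σ' - V)) ∂(surf d) := h8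
      _ = ∫ V : Vec d, (surf d).real univ *
            (wg V * Ac U ((1 / 2 : ℝ) • (len V • σ' - V))) := by
          congr 1
          funext V
          rw [integral_const, smul_eq_mul]
      _ = _ := integral_const_mul _ _
  have h9 : Integrable (fun q : Vec d × Vec d =>
      wg q.1 * Ac U ((1 / 2 : ℝ) • (len q.1 • q.2 - q.1)))
      ((volume : Measure (Vec d)).prod (surf d)) := by
    refine Gain_Hi hAc hAb ?_
    have h1 : Continuous fun q : Vec d × Vec d => len q.1 := Gain_lenc continuous_fst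
    exact ((h1.smul continuous_snd).sub continuous_fst).const_smul (1 / 2 : ℝ)
  rw [integral_prod_symm _ h9, ← integral_const_mul]
  congr 1
  funext σ'
  exact e2 σ'

private lemma Gain_post (V w σ : Vec d) : post (V + w) w σ = w + Gain_x V σ := by
  unfold post Gain_x
  rw [add_sub_cancel_right]
  ext i
  simp only [Pi.add_apply, Pi.smul_apply, smul_eq_mul]
  ring

/-- the Gaussian integral in the constant -/
private noncomputable def Gain_I (d : ℕ) : ℝ :=
  ∫ q : Vec d × Vec d, gau q.1 * gau q.2 ∂((volume : Measure (Vec d)).prod volume)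

private lemma Gain_gauc : Continuous (gau : Vec d → ℝ) := by
  have h : Continuous fun v : Vec d => -nsq v := continuous_sq.neg
  exact Real.continuous_exp.comp h

private lemma Gain_gau : Integrable (gau : Vec d → ℝ) := by
  have h : (gau : Vec d → ℝ) = fun v : Vec d => ∏ i, Real.exp (-1 * (v i) ^ 2) := by
    funext v
    unfold gau nsq
    rw [← Real.exp_sum]
    congr 1
    simp
  rw [h]
  exact MeasureTheory.Integrable.fintype_prod (f := fun (_ : Fin d) (x : ℝ) => Real.exp (-1 * x ^ 2))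
    (fun i => integrable_exp_neg_mul_sq one_pos)

private lemma Gain_nsq (V w : Vec d) : nsq V ≤ 2 * nsq (V + w) + 2 * nsq w := by
  unfold nsq
  rw [Finset.mul_sum, Finset.mul_sum, ← Finset.sum_add_distrib]
  refine Finset.sum_le_sum fun i _ => ?_
  simp only [Pi.add_apply]
  nlinarith [sq_nonneg (V i + 2 * w i)]

theorem gain (hd : 2 ≤ d) (K : ℝ) : ∃ C : ℝ, 0 ≤ C ∧ ∀ k : Vec d → ℝ, Continuous k →
    (∀ v, 0 ≤ k v) → (∀ v, k v ≤ K * gau v) → ∀ (B : ℝ) (U : Vec d → ℝ), Continuous U →
    Integrable U → (∀ v, |U v| ≤ B) →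
      (∫ p, k p.1 * k p.2.1 * U (post p.1 p.2.1 p.2.2) ∂(mu3 d)) ^ 2 ≤
        C * ∫ q : Vec d × Vec d, wg q.1 * Ac U ((1 / 2 : ℝ) • (len q.1 • q.2 - q.1))
          ∂((volume : Measure (Vec d)).prod (surf d)) := by
  have hd1 : 1 ≤ d := by omega
  have hI0 : 0 ≤ Gain_I d :=
    integral_nonneg fun q => mul_nonneg (Real.exp_pos _).le (Real.exp_pos _).le
  refine ⟨K ^ 4 * Gain_I d * (surf d).real univ, by positivity, ?_⟩
  intro k hk h0 hK B U hU hi hB
  have hB0 : 0 ≤ B := (abs_nonneg _).trans (hB 0)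
  have hKK : ∀ v w, k v * k w ≤ K ^ 2 * (gau v * gau w) := by
    intro v w
    calc k v * k w ≤ (K * gau v) * (K * gau w) :=
          mul_le_mul (hK v) (hK w) (h0 w) ((h0 v).trans (hK v))
      _ = _ := by ring
  have hfc : Continuous fun p : Vec d × Vec d × Vec d =>
      k p.1 * k p.2.1 * U (post p.1 p.2.1 p.2.2) :=
    ((hk.comp continuous_fst).mul (hk.comp (continuous_fst.comp continuous_snd))).mul
      (hU.comp continuous_post)
  have hfi : Integrable (fun p : Vec d × Vec d × Vec d =>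
      k p.1 * k p.2.1 * U (post p.1 p.2.1 p.2.2)) (mu3 d) := by
    refine ((gg_int (d := d) hd1).const_mul (K ^ 2 * B)).mono' hfc.aestronglyMeasurable
      (Eventually.of_forall fun p => ?_)
    rw [Real.norm_eq_abs, abs_mul, abs_of_nonneg (mul_nonneg (h0 _) (h0 _))]
    calc k p.1 * k p.2.1 * |U (post p.1 p.2.1 p.2.2)|
        ≤ (K ^ 2 * (gau p.1 * gau p.2.1)) * B :=
          mul_le_mul (hKK _ _) (hB _) (abs_nonneg _)
            (le_trans (mul_nonneg (h0 _) (h0 _)) (hKK _ _))
      _ = K ^ 2 * B * (gau p.1 * gau p.2.1) := by ring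
  have hmp := measurePreserving_prodAssoc (volume : Measure (Vec d)) (volume : Measure (Vec d))
    (surf d)
  have hf' : Integrable (fun z : (Vec d × Vec d) × Vec d =>
      k z.1.1 * k z.1.2 * U (post z.1.1 z.1.2 z.2))
      (((volume : Measure (Vec d)).prod (volume : Measure (Vec d))).prod (surf d)) :=
    (hmp.integrable_comp_emb (MeasurableEquiv.measurableEmbedding _)).2 hfi
  have hT : ∫ p, k p.1 * k p.2.1 * U (post p.1 p.2.1 p.2.2) ∂(mu3 d) =
      ∫ q : Vec d × Vec d, (∫ σ, k q.1 * k q.2 * U (post q.1 q.2 σ) ∂(surf d))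
        ∂((volume : Measure (Vec d)).prod (volume : Measure (Vec d))) := by
    rw [← integral_prod _ hf']
    exact (hmp.integral_comp' (fun p : Vec d × Vec d × Vec d =>
      k p.1 * k p.2.1 * U (post p.1 p.2.1 p.2.2))).symm
  have hF : Integrable (fun q : Vec d × Vec d => ∫ σ, k q.1 * k q.2 * U (post q.1 q.2 σ) ∂(surf d))
      ((volume : Measure (Vec d)).prod (volume : Measure (Vec d))) := hf'.integral_prod_left
  have hm2 := measurePreserving_add_prod (volume : Measure (Vec d)) (volume : Measure (Vec d))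
  have hF2 := (hm2.integrable_comp hF.aestronglyMeasurable).2 hF
  have hT2 := integral_map (μ := (volume : Measure (Vec d)).prod (volume : Measure (Vec d)))
    (f := fun q : Vec d × Vec d => ∫ σ, k q.1 * k q.2 * U (post q.1 q.2 σ) ∂(surf d))
    hm2.measurable.aemeasurable (by rw [hm2.map_eq]; exact hF.aestronglyMeasurable)
  rw [hm2.map_eq] at hT2
  have hab : ∀ q : Vec d × Vec d, (∫ σ, k (q.1 + q.2) * k q.2 * U (post (q.1 + q.2) q.2 σ) ∂(surf d)) =
      (k (q.1 + q.2) * k q.2 * Real.exp (nsq q.1 / 8)) *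
        (Real.exp (-(nsq q.1 / 8)) * Gain_S U q) := by
    intro q
    rw [integral_const_mul]
    have h1 : (fun σ => U (post (q.1 + q.2) q.2 σ)) = fun σ => U (q.2 + Gain_x q.1 σ) := by
      funext σ
      rw [Gain_post]
    have h2 : Real.exp (nsq q.1 / 8) * Real.exp (-(nsq q.1 / 8)) = 1 := by
      rw [← Real.exp_add, add_neg_cancel, Real.exp_zero]
    rw [h1]
    unfold Gain_S
    calc k (q.1 + q.2) * k q.2 * ∫ σ, U (q.2 + Gain_x q.1 σ) ∂(surf d)
        = k (q.1 + q.2) * k q.2 * (Real.exp (nsq q.1 / 8) * Real.exp (-(nsq q.1 / 8))) *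
          ∫ σ, U (q.2 + Gain_x q.1 σ) ∂(surf d) := by rw [h2, mul_one]
      _ = _ := by ring
  -- the functions a and b
  have hac : Continuous fun q : Vec d × Vec d =>
      (k (q.1 + q.2) * k q.2 * Real.exp (nsq q.1 / 8)) ^ 2 := by
    have h1 : Continuous fun q : Vec d × Vec d => nsq q.1 / 8 :=
      (continuous_sq.comp continuous_fst).div_const 8
    exact (((hk.comp (continuous_fst.add continuous_snd)).mul (hk.comp continuous_snd)).mul
      (Real.continuous_exp.comp h1)).pow 2
  have hgg : Integrable (fun q : Vec d × Vec d => gau (q.1 + q.2) * gau q.2)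
      ((volume : Measure (Vec d)).prod (volume : Measure (Vec d))) :=
    (hm2.integrable_comp (g := fun q : Vec d × Vec d => gau q.1 * gau q.2)
      ((Gain_gauc.comp continuous_fst).mul (Gain_gauc.comp continuous_snd)).aestronglyMeasurable).2
      (Gain_gau.mul_prod Gain_gau)
  have hggv : ∫ q : Vec d × Vec d, gau (q.1 + q.2) * gau q.2
      ∂((volume : Measure (Vec d)).prod (volume : Measure (Vec d))) = Gain_I d := by
    have h1 := integral_map (μ := (volume : Measure (Vec d)).prod (volume : Measure (Vec d)))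
      (f := fun q : Vec d × Vec d => gau q.1 * gau q.2) hm2.measurable.aemeasurable
      ((Gain_gauc.comp continuous_fst).mul (Gain_gauc.comp continuous_snd)).aestronglyMeasurable
    rw [hm2.map_eq] at h1
    exact h1.symm
  have hale : ∀ q : Vec d × Vec d, (k (q.1 + q.2) * k q.2 * Real.exp (nsq q.1 / 8)) ^ 2 ≤
      K ^ 4 * (gau (q.1 + q.2) * gau q.2) := by
    intro q
    have h1 : (k (q.1 + q.2) * k q.2) ^ 2 ≤ (K ^ 2 * (gau (q.1 + q.2) * gau q.2)) ^ 2 :=
      pow_le_pow_left₀ (mul_nonneg (h0 _) (h0 _)) (hKK _ _) 2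
    have h2 : Real.exp (nsq q.1 / 8) ^ 2 = Real.exp (nsq q.1 / 4) := by
      rw [← Real.exp_nat_mul]
      congr 1
      push_cast
      ring
    have h3 : (gau (q.1 + q.2) * gau q.2) * Real.exp (nsq q.1 / 4) ≤ 1 := by
      unfold gau
      rw [← Real.exp_add, ← Real.exp_add, Real.exp_le_one_iff]
      have h4 := Gain_nsq q.1 q.2
      have h5 : 0 ≤ nsq (q.1 + q.2) := sq_nonneg' _
      have h6 : 0 ≤ nsq q.2 := sq_nonneg' _
      linarith
    have h4 : 0 ≤ gau (q.1 + q.2) * gau q.2 := mul_nonneg (Real.exp_pos _).le (Real.exp_pos _).le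
    calc (k (q.1 + q.2) * k q.2 * Real.exp (nsq q.1 / 8)) ^ 2
        = (k (q.1 + q.2) * k q.2) ^ 2 * Real.exp (nsq q.1 / 4) := by rw [mul_pow, h2]
      _ ≤ (K ^ 2 * (gau (q.1 + q.2) * gau q.2)) ^ 2 * Real.exp (nsq q.1 / 4) :=
          mul_le_mul_of_nonneg_right h1 (Real.exp_pos _).le
      _ = K ^ 4 * (gau (q.1 + q.2) * gau q.2) *
          ((gau (q.1 + q.2) * gau q.2) * Real.exp (nsq q.1 / 4)) := by ring
      _ ≤ K ^ 4 * (gau (q.1 + q.2) * gau q.2) * 1 :=
          mul_le_mul_of_nonneg_left h3 (mul_nonneg (by positivity) h4)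
      _ = _ := mul_one _
  have hai : Integrable (fun q : Vec d × Vec d =>
      (k (q.1 + q.2) * k q.2 * Real.exp (nsq q.1 / 8)) ^ 2)
      ((volume : Measure (Vec d)).prod (volume : Measure (Vec d))) :=
    (hgg.const_mul (K ^ 4)).mono' hac.aestronglyMeasurable (Eventually.of_forall fun q => by
      rw [Real.norm_eq_abs, abs_of_nonneg (sq_nonneg _)]
      exact hale q)
  have hav : ∫ q : Vec d × Vec d, (k (q.1 + q.2) * k q.2 * Real.exp (nsq q.1 / 8)) ^ 2
      ∂((volume : Measure (Vec d)).prod (volume : Measure (Vec d))) ≤ K ^ 4 * Gain_I d := by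
    rw [← hggv, ← integral_const_mul]
    exact integral_mono hai (hgg.const_mul _) hale
  obtain ⟨hb1, hb2⟩ := Gain_b hU hi hB
  have hbe : (fun q : Vec d × Vec d => (Real.exp (-(nsq q.1 / 8)) * Gain_S U q) ^ 2) =
      fun q => wg q.1 * Gain_S U q ^ 2 := by
    funext q
    rw [mul_pow, ← Real.exp_nat_mul]
    unfold wg
    congr 2
    push_cast
    ring
  have hbi : Integrable (fun q : Vec d × Vec d => (Real.exp (-(nsq q.1 / 8)) * Gain_S U q) ^ 2)
      ((volume : Measure (Vec d)).prod (volume : Measure (Vec d))) := by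
    rw [hbe]
    exact hb1
  have hcs := Gain_cs hai hbi (by
    refine hF2.congr (Eventually.of_forall fun q => ?_)
    exact hab q)
  rw [hbe, hb2, Gain_main hd1 hU hi hB] at hcs
  have hTe : ∫ p, k p.1 * k p.2.1 * U (post p.1 p.2.1 p.2.2) ∂(mu3 d) =
      ∫ q : Vec d × Vec d, (k (q.1 + q.2) * k q.2 * Real.exp (nsq q.1 / 8)) *
        (Real.exp (-(nsq q.1 / 8)) * Gain_S U q)
        ∂((volume : Measure (Vec d)).prod (volume : Measure (Vec d))) := by
    rw [hT, hT2]
    congr 1
    funext q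
    exact hab q
  rw [hTe]
  refine hcs.trans ?_
  have hR0 : 0 ≤ (surf d).real univ * ∫ q : Vec d × Vec d,
      wg q.1 * Ac U ((1 / 2 : ℝ) • (len q.1 • q.2 - q.1))
        ∂((volume : Measure (Vec d)).prod (surf d)) := by
    rw [← Gain_main hd1 hU hi hB, ← hb2]
    exact integral_nonneg fun q => mul_nonneg (Gain_wg0 _) (sq_nonneg _)
  calc _ ≤ (K ^ 4 * Gain_I d) * ((surf d).real univ * ∫ q : Vec d × Vec d,
      wg q.1 * Ac U ((1 / 2 : ℝ) • (len q.1 • q.2 - q.1))
        ∂((volume : Measure (Vec d)).prod (surf d))) := mul_le_mul_of_nonneg_right hav hR0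
    _ = _ := by ring

end Pool.Agent.H37.SA
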