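import Pool.Agent.H37.SA.Push
import Pool.Agent.H37.SA.Gain

/-!
# Module ModA: the strong modulus of continuity

`k` in `KC K c`, `0 ≤ k ≤ K` (so `K ≥ 0`). `r(v) = k(v+z) - k(v)`, `U(v) = 2k(v) - k(v-z) - k(v+z) = r(v-z) - r(v)`. `∫ k U = ∫ r²` (translation invariance: `∫ k(v)k(v-z) = ∫ k(v+z) k(v)`, `∫ k(v+z)² = ∫ k²`). `|U| ≤ 4K`, `∫|U| ≤ 4 K ∫ gau`.
`Fw` with `Ψ(v,w) = U v`, `B = 4K`: `∫_mu3 k(v)k(w) U(v) = s₀ (∫ k U)(∫ k) ≥ s₀ c ∫ r²`, `s₀ = (surf d).real univ > 0`. So `s₀ c ∫ r² ≤ 4 K D + |∫_mu3 k(v)k(w) U(v')| ≤ 4 K D + √(C X)`, `X = ∫ wg Ac U(ζ)`, `ζ = (1/2)(|V|σ - V)` (`gain`).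
`Ac U ζ = ∫ U(m) [r(m+ζ-z) - r(m+ζ)] dm = R₁(ζ - z) - R₁(ζ)`, `R₁(ζ) = ∫ U(m) r(m+ζ) dm` continuous, `|R₁| ≤ 2K ∫|U| ≤ 8 K² ∫ gau =: B₁`. `push`: `X ≤ ε' B₁` for `‖z‖ ≤ δ`. Choose `D₀`, `ε'` so that `4 K D₀ + √(C ε' B₁) ≤ s₀ c ε`.
-/

set_option autoImplicit false

open MeasureTheory Set Filter Topology Pool.Agent.H25.Kin Pool.Agent.H37.LT
open Pool.Agent.H15.AV (gau UNice)

namespace Pool.Agent.H37.SA

variable {d : ℕ}

private lemma modA_gau_pos (v : Vec d) : 0 < gau v := Real.exp_pos _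

private lemma modA_nsq (v : Vec d) : 0 ≤ nsq v := Finset.sum_nonneg fun _ _ => sq_nonneg _

private lemma modA_gau_le (v : Vec d) : gau v ≤ 1 := by
  unfold gau
  have := modA_nsq v
  exact Real.exp_le_one_iff.2 (by linarith)

private lemma modA_gau_int (d : ℕ) : Integrable (gau : Vec d → ℝ) := by
  have h2 : ∀ v : Vec d, gau v = ∏ i, Real.exp (-1 * (v i) ^ 2) := by
    intro v
    rw [← Real.exp_sum]
    unfold gau
    congr 1
    unfold nsq
    rw [← Finset.sum_neg_distrib]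
    exact Finset.sum_congr rfl fun i _ => by ring
  have h3 : Integrable (fun v : Vec d => ∏ i, Real.exp (-1 * (v i) ^ 2)) :=
    Integrable.fintype_prod fun _ => integrable_exp_neg_mul_sq (by norm_num : (0 : ℝ) < 1)
  exact h3.congr (Eventually.of_forall fun v => (h2 v).symm)

private lemma modA_surf (hd : 1 ≤ d) : 0 < (surf d).real univ := by
  have h1 : (surf d) univ = (volume : Measure (EuclideanSpace ℝ (Fin d))).toSphere univ := by
    unfold surf
    rw [Measure.map_apply surf_meas MeasurableSet.univ]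
    rfl
  have : Nonempty (Fin d) := ⟨⟨0, hd⟩⟩
  have h2 : (surf d) univ ≠ 0 := by
    rw [h1, Measure.toSphere_apply_univ]
    refine mul_ne_zero ?_ (Metric.measure_ball_pos volume _ one_pos).ne'
    rw [finrank_euclideanSpace, Fintype.card_fin]
    exact Nat.cast_ne_zero.2 (by omega)
  exact ENNReal.toReal_pos h2 (measure_ne_top _ _)

/-- integrable times bounded continuous -/
private lemma modA_bm {f g : Vec d → ℝ} (hf : Integrable f) (hg : Continuous g) {B : ℝ}
    (hB : ∀ v, |g v| ≤ B) : Integrable fun v => f v * g v := by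
  refine Integrable.mono' (hf.norm.mul_const B) (hf.aestronglyMeasurable.mul hg.aestronglyMeasurable)
    (Eventually.of_forall fun v => ?_)
  rw [norm_mul, Real.norm_eq_abs (g v)]
  exact mul_le_mul_of_nonneg_left (hB v) (norm_nonneg _)

/-- the data of the proof -/
private structure MdA (K : ℝ) (k : Vec d → ℝ) (z : Vec d) (r U : Vec d → ℝ) : Prop where
  rdef : ∀ v, r v = k (v + z) - k v
  udef : ∀ v, U v = 2 * k v - k (v - z) - k (v + z)
  kc : Continuous k
  ki : Integrable k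
  kb : ∀ v, 0 ≤ k v ∧ k v ≤ K
  kg : ∀ v, k v ≤ K * gau v

private lemma modA_shift {f : Vec d → ℝ} (hf : Integrable f) (z : Vec d) :
    Integrable (fun v => f (v + z)) ∧ Integrable (fun v => f (v - z)) :=
  ⟨hf.comp_add_right z, hf.comp_sub_right z⟩

private lemma modA_rb {K : ℝ} {k r U : Vec d → ℝ} {z : Vec d} (h : MdA K k z r U) :
    Continuous r ∧ Continuous U ∧ (∀ v, |r v| ≤ K) ∧ (∀ v, |U v| ≤ 4 * K) ∧ Integrable r ∧
      Integrable U := by
  have er : r = fun v => k (v + z) - k v := funext h.rdef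
  have eU : U = fun v => 2 * k v - k (v - z) - k (v + z) := funext h.udef
  have c1 : Continuous fun v => k (v + z) := h.kc.comp (by fun_prop)
  have c2 : Continuous fun v => k (v - z) := h.kc.comp (by fun_prop)
  obtain ⟨i1, i2⟩ := modA_shift h.ki z
  refine ⟨by rw [er]; exact c1.sub h.kc,
    by rw [eU]; exact ((h.kc.const_mul 2).sub c2).sub c1, fun v => ?_, fun v => ?_,
    by rw [er]; exact i1.sub h.ki, by rw [eU]; exact ((h.ki.const_mul 2).sub i2).sub i1⟩
  · rw [h.rdef, abs_le]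
    constructor <;> linarith [(h.kb v).1, (h.kb v).2, (h.kb (v + z)).1, (h.kb (v + z)).2]
  · rw [h.udef, abs_le]
    constructor <;> linarith [(h.kb v).1, (h.kb v).2, (h.kb (v + z)).1, (h.kb (v + z)).2,
      (h.kb (v - z)).1, (h.kb (v - z)).2]

/-- `∫ k U = ∫ r²` -/
private lemma modA_kU {K : ℝ} {k r U : Vec d → ℝ} {z : Vec d} (h : MdA K k z r U) :
    ∫ v, k v * U v = ∫ v, r v ^ 2 := by
  have c1 : Continuous fun v => k (v + z) := h.kc.comp (by fun_prop)
  have c2 : Continuous fun v => k (v - z) := h.kc.comp (by fun_prop)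
  have hb : ∀ v, |k v| ≤ K := fun v => by rw [abs_of_nonneg (h.kb v).1]; exact (h.kb v).2
  have i0 : Integrable fun v => k v * k v := modA_bm h.ki h.kc hb
  have i1 : Integrable fun v => k v * k (v + z) := modA_bm h.ki c1 fun v => hb _
  have i2 : Integrable fun v => k v * k (v - z) := modA_bm h.ki c2 fun v => hb _
  have i3 : Integrable fun v => k (v + z) * k (v + z) :=
    modA_bm (modA_shift h.ki z).1 c1 fun v => hb _
  have e1 : ∫ v, k (v + z) * k (v + z) = ∫ v, k v * k v :=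
    integral_add_right_eq_self (fun v => k v * k v) z
  have e2 : ∫ v, k v * k (v + z) = ∫ v, k v * k (v - z) := by
    have := integral_add_right_eq_self (μ := (volume : Measure (Vec d)))
      (fun v => k v * k (v - z)) z
    simp only [add_sub_cancel_right] at this
    rw [← this]
    exact integral_congr_ae (Eventually.of_forall fun v => mul_comm _ _)
  have e3 : ∫ v, k v * U v = 2 * (∫ v, k v * k v) - (∫ v, k v * k (v - z)) -
      ∫ v, k v * k (v + z) := by
    have : ∀ v, k v * U v = 2 * (k v * k v) - k v * k (v - z) - k v * k (v + z) := by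
      intro v
      rw [h.udef]
      ring
    simp only [this]
    have a1 : Integrable fun v => 2 * (k v * k v) - k v * k (v - z) := (i0.const_mul 2).sub i2
    rw [integral_sub a1 i1, integral_sub (i0.const_mul 2) i2, integral_const_mul]
  have e4 : ∫ v, r v ^ 2 = (∫ v, k (v + z) * k (v + z)) - 2 * (∫ v, k v * k (v + z)) +
      ∫ v, k v * k v := by
    have : ∀ v, r v ^ 2 = k (v + z) * k (v + z) - 2 * (k v * k (v + z)) + k v * k v := by
      intro v
      rw [h.rdef]
      ring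
    simp only [this]
    have a1 : Integrable fun v => k (v + z) * k (v + z) - 2 * (k v * k (v + z)) :=
      i3.sub (i1.const_mul 2)
    rw [integral_add a1 i0, integral_sub i3 (i1.const_mul 2), integral_const_mul]
  rw [e3, e4, e1, e2]
  ring

/-- `∫ |U| ≤ 4 K ∫ gau` -/
private lemma modA_UL1 {K : ℝ} {k r U : Vec d → ℝ} {z : Vec d} (h : MdA K k z r U) :
    ∫ v, |U v| ≤ 4 * K * ∫ v : Vec d, gau v := by
  have hg := modA_gau_int d
  obtain ⟨i1, i2⟩ := modA_shift hg z
  obtain ⟨-, -, -, -, -, hU⟩ := modA_rb h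
  have h1 : ∫ v, |U v| ≤ ∫ v : Vec d, (2 * K * gau v + K * gau (v - z) + K * gau (v + z)) := by
    refine integral_mono hU.abs (((hg.const_mul (2 * K)).add (i2.const_mul K)).add
      (i1.const_mul K)) fun v => ?_
    simp only
    rw [h.udef, abs_le]
    have g1 := h.kg v
    have g2 := h.kg (v - z)
    have g3 := h.kg (v + z)
    constructor <;> linarith [(h.kb v).1, (h.kb (v + z)).1, (h.kb (v - z)).1]
  refine h1.trans (le_of_eq ?_)
  have a1 : Integrable fun v : Vec d => 2 * K * gau v + K * gau (v - z) :=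
    (hg.const_mul (2 * K)).add (i2.const_mul K)
  rw [integral_add a1 (i1.const_mul K), integral_add (hg.const_mul (2 * K)) (i2.const_mul K),
    integral_const_mul, integral_const_mul, integral_const_mul,
    integral_add_right_eq_self (fun v : Vec d => gau v) z,
    integral_sub_right_eq_self (fun v : Vec d => gau v) z]
  ring

/-- the correlation `∫ U(m) r(m+ζ) dm` -/
private noncomputable def modA_R (U r : Vec d → ℝ) (ζ : Vec d) : ℝ := ∫ m, U m * r (m + ζ)

private lemma modA_Rc {K : ℝ} {k r U : Vec d → ℝ} {z : Vec d} (h : MdA K k z r U) :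
    Continuous (modA_R U r) := by
  obtain ⟨cr, cU, br, -, -, iU⟩ := modA_rb h
  unfold modA_R
  refine continuous_of_dominated (bound := fun m => |U m| * K) (fun ζ => ?_) (fun ζ => ?_)
    (iU.abs.mul_const K) ?_
  · exact (cU.mul (cr.comp (by fun_prop))).aestronglyMeasurable
  · refine Eventually.of_forall fun m => ?_
    rw [Real.norm_eq_abs, abs_mul]
    exact mul_le_mul_of_nonneg_left (br _) (abs_nonneg _)
  · refine Eventually.of_forall fun m => ?_
    exact continuous_const.mul (cr.comp (by fun_prop))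

private lemma modA_Rb {K : ℝ} {k r U : Vec d → ℝ} {z : Vec d} (h : MdA K k z r U) (hK : 0 ≤ K)
    (ζ : Vec d) : |modA_R U r ζ| ≤ 4 * K * (∫ v : Vec d, gau v) * K := by
  obtain ⟨cr, cU, br, -, -, iU⟩ := modA_rb h
  unfold modA_R
  refine (abs_integral_le_integral_abs).trans ?_
  have i1 : Integrable fun m => U m * r (m + ζ) := modA_bm iU (cr.comp (by fun_prop)) fun v => br _
  have h1 : ∫ m, |U m * r (m + ζ)| ≤ ∫ m, |U m| * K := by
    refine integral_mono i1.abs (iU.abs.mul_const K) fun m => ?_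
    simp only
    rw [abs_mul]
    exact mul_le_mul_of_nonneg_left (br _) (abs_nonneg _)
  refine h1.trans ?_
  rw [integral_mul_const]
  exact mul_le_mul_of_nonneg_right (modA_UL1 h) hK

private lemma modA_Ac {K : ℝ} {k r U : Vec d → ℝ} {z : Vec d} (h : MdA K k z r U) (ζ : Vec d) :
    Ac U ζ = modA_R U r (ζ - z) - modA_R U r ζ := by
  obtain ⟨cr, cU, br, -, -, iU⟩ := modA_rb h
  unfold Ac modA_R
  have i1 : Integrable fun m => U m * r (m + (ζ - z)) :=
    modA_bm iU (cr.comp (by fun_prop)) fun v => br _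
  have i2 : Integrable fun m => U m * r (m + ζ) := modA_bm iU (cr.comp (by fun_prop)) fun v => br _
  rw [← integral_sub i1 i2]
  refine integral_congr_ae (Eventually.of_forall fun m => ?_)
  simp only
  rw [h.udef (m + ζ), h.rdef, h.rdef]
  have e1 : m + (ζ - z) + z = m + ζ := by abel
  have e2 : m + (ζ - z) = m + ζ - z := by abel
  rw [e1, e2]
  ring

/-- the product integral over `mu3` -/
private lemma modA_prod {K : ℝ} {k r U : Vec d → ℝ} {z : Vec d} (_h : MdA K k z r U) :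
    ∫ p, k p.1 * k p.2.1 * U p.1 ∂(mu3 d) =
      (∫ v, k v * U v) * ((∫ v, k v) * (surf d).real univ) := by
  have e : ∀ p : Vec d × Vec d × Vec d, k p.1 * k p.2.1 * U p.1 =
      (fun v => k v * U v) p.1 * (fun q : Vec d × Vec d => k q.1 * 1) p.2 := by
    intro p
    simp only
    ring
  simp only [e]
  have h1 := integral_prod_mul (μ := (volume : Measure (Vec d)))
    (ν := (volume : Measure (Vec d)).prod (surf d)) (fun v => k v * U v)
    (fun q : Vec d × Vec d => k q.1 * 1)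
  have h2 := integral_prod_mul (μ := (volume : Measure (Vec d))) (ν := surf d) k
    (fun _ => (1 : ℝ))
  refine h1.trans ?_
  rw [h2, integral_const]
  simp

theorem modA (hd : 2 ≤ d) {K c : ℝ} (hK : 0 ≤ K) (hc : 0 < c) {ε : ℝ} (hε : 0 < ε) :
    ∃ z₀ D₀ : ℝ, 0 < z₀ ∧ 0 < D₀ ∧ ∀ k : Vec d → ℝ, KC K c k → Fw D₀ k →
      ∀ z : Vec d, ‖z‖ ≤ z₀ → ∫ v, (k (v + z) - k v) ^ 2 ≤ ε := by
  have hs₀ := modA_surf (d := d) (by omega)
  obtain ⟨s₀, hs₀'⟩ : ∃ s₀ : ℝ, s₀ = (surf d).real univ := ⟨_, rfl⟩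
  rw [← hs₀'] at hs₀
  obtain ⟨C, hC, hgain⟩ := gain hd K
  have hg0 : 0 ≤ ∫ v : Vec d, gau v := integral_nonneg fun v => (modA_gau_pos v).le
  obtain ⟨B₁, hB₁⟩ : ∃ B₁ : ℝ, B₁ = 4 * K * (∫ v : Vec d, gau v) * K := ⟨_, rfl⟩
  have hB₁0 : 0 ≤ B₁ := by rw [hB₁]; positivity
  obtain ⟨τ, hτ⟩ : ∃ τ : ℝ, τ = s₀ * c * ε := ⟨_, rfl⟩
  have hτ0 : 0 < τ := by rw [hτ]; positivity
  have hε' : 0 < (τ / 2) ^ 2 / (C * B₁ + 1) := by positivity
  obtain ⟨δ, hδ, hpush⟩ := push (d := d) hd hε'
  refine ⟨δ, τ / (8 * (K + 1)), hδ, by positivity, ?_⟩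
  intro k hk hFw z hz
  have h : MdA K k z (fun v => k (v + z) - k v) (fun v => 2 * k v - k (v - z) - k (v + z)) :=
    { rdef := fun v => rfl
      udef := fun v => rfl
      kc := hk.cont
      ki := by
        refine Integrable.mono' ((modA_gau_int d).const_mul K) hk.cont.aestronglyMeasurable
          (Eventually.of_forall fun v => ?_)
        rw [Real.norm_eq_abs, abs_of_nonneg (hk.nn v)]
        exact hk.le v
      kb := fun v => ⟨hk.nn v, (hk.le v).trans (by nlinarith [modA_gau_le v, modA_gau_pos v])⟩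
      kg := hk.le }
  generalize hr : (fun v => k (v + z) - k v) = r at h
  generalize hU : (fun v => 2 * k v - k (v - z) - k (v + z)) = U at h
  obtain ⟨cr, cU, br, bU, ir, iU⟩ := modA_rb h
  have hgoal : ∫ v, (k (v + z) - k v) ^ 2 = ∫ v, r v ^ 2 := by rw [← hr]
  rw [hgoal]
  -- the functional equation
  have h1 := hFw (4 * K) (fun q => U q.1) (cU.comp continuous_fst) fun q => bU _
  have hI : Integrable (fun p : Vec d × Vec d × Vec d => K * K * (4 * K) *
      (gau p.1 * gau p.2.1)) (mu3 d) := (gg_int (by omega : 1 ≤ d)).const_mul _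
  have hkk : ∀ p : Vec d × Vec d × Vec d, ∀ x : ℝ, |x| ≤ 4 * K →
      ‖k p.1 * k p.2.1 * x‖ ≤ K * K * (4 * K) * (gau p.1 * gau p.2.1) := by
    intro p x hx
    rw [Real.norm_eq_abs, abs_mul, abs_mul, abs_of_nonneg (hk.nn _), abs_of_nonneg (hk.nn _)]
    have g1 := modA_gau_pos p.1
    have g2 := modA_gau_pos p.2.1
    calc k p.1 * k p.2.1 * |x| ≤ (K * gau p.1) * (K * gau p.2.1) * (4 * K) := by
          refine mul_le_mul (mul_le_mul (hk.le _) (hk.le _) (hk.nn _) (by positivity)) hx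
            (abs_nonneg _) (by positivity)
      _ = K * K * (4 * K) * (gau p.1 * gau p.2.1) := by ring
  have ckk : Continuous fun p : Vec d × Vec d × Vec d => k p.1 * k p.2.1 :=
    (hk.cont.comp continuous_fst).mul (hk.cont.comp (by fun_prop))
  have iA : Integrable (fun p : Vec d × Vec d × Vec d => k p.1 * k p.2.1 * U p.1) (mu3 d) :=
    Integrable.mono' hI (ckk.mul (cU.comp continuous_fst)).aestronglyMeasurable
      (Eventually.of_forall fun p => hkk p _ (bU _))
  have iB : Integrable (fun p : Vec d × Vec d × Vec d =>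
      k p.1 * k p.2.1 * U (post p.1 p.2.1 p.2.2)) (mu3 d) :=
    Integrable.mono' hI (ckk.mul (cU.comp continuous_post)).aestronglyMeasurable
      (Eventually.of_forall fun p => hkk p _ (bU _))
  have h2 : (∫ p, k p.1 * k p.2.1 * U p.1 ∂(mu3 d)) -
      (∫ p, k p.1 * k p.2.1 * U (post p.1 p.2.1 p.2.2) ∂(mu3 d)) ≤
      τ / (8 * (K + 1)) * (4 * K) := by
    rw [← integral_sub iA iB]
    refine (le_abs_self _).trans (le_trans (le_of_eq ?_) h1)
    congr 1
    refine integral_congr_ae (Eventually.of_forall fun p => ?_)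
    simp only
    ring
  have h3 : τ / (8 * (K + 1)) * (4 * K) ≤ τ / 2 := by
    rw [div_mul_eq_mul_div, div_le_iff₀ (by positivity)]
    nlinarith
  -- the gain term
  have h4 := hgain k hk.cont hk.nn hk.le (4 * K) U cU iU bU
  have h5 := hpush z hz B₁ (modA_R U r) (modA_Rc h) (fun ζ => by rw [hB₁]; exact modA_Rb h hK ζ)
  have h6 : ∫ q : Vec d × Vec d, wg q.1 * Ac U ((1 / 2 : ℝ) • (len q.1 • q.2 - q.1))
      ∂((volume : Measure (Vec d)).prod (surf d)) ≤ (τ / 2) ^ 2 / (C * B₁ + 1) * B₁ := by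
    refine le_trans (le_of_eq ?_) ((le_abs_self _).trans h5)
    refine integral_congr_ae (Eventually.of_forall fun q => ?_)
    simp only
    rw [modA_Ac h]
  have h7 : (∫ p, k p.1 * k p.2.1 * U (post p.1 p.2.1 p.2.2) ∂(mu3 d)) ^ 2 ≤ (τ / 2) ^ 2 := by
    refine h4.trans ((mul_le_mul_of_nonneg_left h6 hC).trans ?_)
    have hden : 0 < C * B₁ + 1 := by positivity
    calc C * ((τ / 2) ^ 2 / (C * B₁ + 1) * B₁) = (τ / 2) ^ 2 * (C * B₁ / (C * B₁ + 1)) := by
          field_simp
      _ ≤ (τ / 2) ^ 2 * 1 := by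
          refine mul_le_mul_of_nonneg_left ?_ (by positivity)
          rw [div_le_one hden]
          linarith
      _ = (τ / 2) ^ 2 := mul_one _
  have h8 : ∫ p, k p.1 * k p.2.1 * U (post p.1 p.2.1 p.2.2) ∂(mu3 d) ≤ τ / 2 :=
    (abs_le_of_sq_le_sq' h7 (by positivity)).2
  have h9 : ∫ p, k p.1 * k p.2.1 * U p.1 ∂(mu3 d) ≤ τ := by linarith
  rw [modA_prod h, modA_kU h, ← hs₀'] at h9
  have h10 : 0 ≤ ∫ v, r v ^ 2 := integral_nonneg fun v => sq_nonneg _
  have h11 : (∫ v, r v ^ 2) * (c * s₀) ≤ (∫ v, r v ^ 2) * ((∫ v, k v) * s₀) :=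
    mul_le_mul_of_nonneg_left (mul_le_mul_of_nonneg_right hk.mass hs₀.le) h10
  have h12 : (∫ v, r v ^ 2) * (c * s₀) ≤ ε * (c * s₀) := by
    refine (h11.trans h9).trans (le_of_eq ?_)
    rw [hτ]
    ring
  exact le_of_mul_le_mul_right h12 (by positivity)

end Pool.Agent.H37.SA
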