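import Pool.Agent.H37.LT.Defs
import Pool.Agent.H82.BK.CV

/-!
# Module Push: smoothing by the map `(V,σ) ↦ (|V|σ - V)/2`

* `transl_L1`: continuity of translations in `L¹`: approximate by a continuous function with compact support (`Integrable.exists_hasCompactSupport_integral_sub_le`), uniformly continuous; or `MeasureTheory.Lp` continuity of `compMeasurePreserving` (Mathlib/MeasureTheory/Function/LpSpace/ContinuousCompMeasurePreserving).
* `push_ac`: for `σ` with `nsq σ = 1` and a null set `N`, `{V | (1/2)(|V|σ - V) ∈ N}` is null: with `σ₁ = -σ`, `(1/2)(|V|σ - V) = -(1/2)(V + |V| σ₁)`; `cv` with `F = indicator of {V | (1/2)(V + |V|σ₁) ∈ -N'}` (`N'` a measurable null set containing `N`, `toMeasurable`): `kap_left` gives `(1/2)(kap σ₁ m + len (kap σ₁ m) σ₁) = m`, so the right side is the integral of a density over a subset of `-N'`, which is null.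
* `push`: the measure `μ = (wg · volume) ⊗ surf`, i.e. `((volume.withDensity (ofReal wg)).prod (surf d))`, is finite; `P = μ.map Θ`, `Θ(V,σ) = (1/2)(|V|σ - V)`, is finite and `P ≪ volume` (`push_ac`, Fubini: `measure_prod_null` or `lintegral_prod_symm`), so `P = volume.withDensity h`, `h = P.rnDeriv volume`, `h` integrable (`Measure.integrable_toReal_rnDeriv`), and `∫ wg R(Θ) = ∫ R dP = ∫ h R dζ`. `∫ h(ζ)(R(ζ - z) - R(ζ)) dζ = ∫ (h(ζ+z) - h(ζ)) R(ζ) dζ`, `≤ B ∫ |h(·+z) - h|`; `transl_L1`.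
-/

set_option autoImplicit false

open MeasureTheory Set Filter Topology Pool.Agent.H25.Kin Pool.Agent.H37.LT
open scoped ENNReal

namespace Pool.Agent.H37.SA

variable {d : ℕ}

/-- the Gaussian weight is integrable -/
private lemma Push_wg : Integrable (wg : Vec d → ℝ) := by
  have h3 : Integrable (fun v : Vec d => ∏ i, Real.exp (-(1 / 4) * (v i) ^ 2)) :=
    Integrable.fintype_prod fun _ => integrable_exp_neg_mul_sq (by norm_num : (0 : ℝ) < 1 / 4)
  refine h3.congr (Eventually.of_forall fun v => ?_)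
  show ∏ i, Real.exp (-(1 / 4) * (v i) ^ 2) = wg v
  unfold wg
  rw [← Real.exp_sum]
  congr 1
  unfold nsq
  rw [← Finset.mul_sum]
  ring

private lemma Push_wgc : Continuous (wg : Vec d → ℝ) := by
  unfold wg
  exact Real.continuous_exp.comp ((continuous_sq.div_const 4).neg)

private lemma Push_th : Continuous fun q : Vec d × Vec d =>
    (1 / 2 : ℝ) • (len q.1 • q.2 - q.1) := by
  have h : Continuous fun q : Vec d × Vec d => len q.1 := continuous_len.comp continuous_fst
  have h2 : Continuous fun q : Vec d × Vec d => len q.1 • q.2 - q.1 :=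
    (h.smul continuous_snd).sub continuous_fst
  exact (continuous_const_smul (1 / 2 : ℝ)).comp h2

/-- the finite measure `(wg · volume) ⊗ surf` -/
private noncomputable def Push_mu (d : ℕ) : Measure (Vec d × Vec d) :=
  ((volume : Measure (Vec d)).withDensity fun v => ENNReal.ofReal (wg v)).prod (surf d)

private lemma Push_fin : IsFiniteMeasure (Push_mu d) := by
  have h : IsFiniteMeasure ((volume : Measure (Vec d)).withDensity fun v =>
      ENNReal.ofReal (wg v)) := isFiniteMeasure_withDensity_ofReal Push_wg.hasFiniteIntegral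
  unfold Push_mu
  infer_instance

private lemma Push_int (G : Vec d × Vec d → ℝ) :
    ∫ q, G q ∂(Push_mu d) =
      ∫ q : Vec d × Vec d, wg q.1 * G q ∂((volume : Measure (Vec d)).prod (surf d)) := by
  have hm : Measurable fun v : Vec d => ENNReal.ofReal (wg v) :=
    Push_wgc.measurable.ennreal_ofReal
  have hm2 : Measurable fun q : Vec d × Vec d => ENNReal.ofReal (wg q.1) := hm.comp measurable_fst
  unfold Push_mu
  rw [prod_withDensity_left hm, integral_withDensity_eq_integral_toReal_smul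
    hm2 (Eventually.of_forall fun q => ENNReal.ofReal_lt_top)]
  refine integral_congr_ae (Eventually.of_forall fun q => ?_)
  show (ENNReal.ofReal (wg q.1)).toReal • G q = wg q.1 * G q
  have hp : 0 ≤ wg q.1 := (Real.exp_pos _).le
  rw [ENNReal.toReal_ofReal hp, smul_eq_mul]

theorem transl_L1 {h : Vec d → ℝ} (hh : Integrable h) {ε : ℝ} (hε : 0 < ε) : ∃ δ > 0,
    ∀ z : Vec d, ‖z‖ ≤ δ → ∫ v, |h (v + z) - h v| ≤ ε := by
  have hmp : ∀ z : Vec d, MeasurePreserving (fun v : Vec d => v + z) volume volume :=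
    fun z => measurePreserving_add_right volume z
  obtain ⟨c, hc⟩ : ∃ c : Vec d → C(Vec d, Vec d), ∀ z v, c z v = v + z :=
    ⟨fun z => ⟨fun v => v + z, by fun_prop⟩, fun z v => rfl⟩
  have hcc : Continuous c := by
    have h1 : Continuous (fun p : Vec d × Vec d => p.2 + p.1) := by fun_prop
    have h2 : c = ContinuousMap.curry ⟨_, h1⟩ := by
      funext z
      ext1 v
      rw [hc]
      rfl
    rw [h2]
    exact (ContinuousMap.curry ⟨_, h1⟩).continuous
  have hce : ∀ z, (c z : Vec d → Vec d) = fun v => v + z := fun z => funext fun v => hc z v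
  have hcm : ∀ z : Vec d, MeasurePreserving (c z) volume volume := fun z => by
    rw [hce]
    exact hmp z
  have hcont : Continuous (fun z => Lp.compMeasurePreserving (c z) (hcm z) (hh.toL1 h)) :=
    Continuous.compMeasurePreservingLp (f := fun _ : Vec d => hh.toL1 h) continuous_const hcc
      hcm ENNReal.one_ne_top
  obtain ⟨δ, hδ, h1⟩ := Metric.continuousAt_iff.1 (hcont.continuousAt (x := 0)) ε hε
  refine ⟨δ / 2, half_pos hδ, fun z hz => ?_⟩
  have h2 := h1 (x := z) (by rw [dist_zero_right]; linarith)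
  rw [dist_eq_norm, L1.norm_eq_integral_norm] at h2
  refine le_of_eq_of_le (integral_congr_ae ?_) h2.le
  have e1 := Lp.coeFn_compMeasurePreserving (hh.toL1 h) (hcm z)
  have e2 := Lp.coeFn_compMeasurePreserving (hh.toL1 h) (hcm 0)
  have e3 := (hcm z).quasiMeasurePreserving.ae hh.coeFn_toL1
  have e4 := (hcm 0).quasiMeasurePreserving.ae hh.coeFn_toL1
  have e5 := Lp.coeFn_sub (Lp.compMeasurePreserving (c z) (hcm z) (hh.toL1 h))
    (Lp.compMeasurePreserving (c 0) (hcm 0) (hh.toL1 h))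
  filter_upwards [e1, e2, e3, e4, e5] with v e1 e2 e3 e4 e5
  rw [e5, Pi.sub_apply, e1, e2, Function.comp_apply, Function.comp_apply, e3, e4, hc, hc, add_zero,
    Real.norm_eq_abs]

theorem push_ac (hd : 2 ≤ d) {σ : Vec d} (hσ : nsq σ = 1) {N : Set (Vec d)}
    (hN : (volume : Measure (Vec d)) N = 0) :
    (volume : Measure (Vec d)) {V | (1 / 2 : ℝ) • (len V • σ - V) ∈ N} = 0 := by
  classical
  have hσ' : nsq (-σ) = 1 := by
    have h := nsq_smul (-1) σ
    rw [neg_smul, one_smul] at h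
    rw [h, hσ]
    norm_num
  obtain ⟨N', hN'⟩ : ∃ N' : Set (Vec d), N' = (fun v => -v) ⁻¹' toMeasurable volume N :=
    ⟨_, rfl⟩
  have hNm : MeasurableSet N' := by
    rw [hN']
    exact (measurableSet_toMeasurable _ _).preimage measurable_neg
  have hN0 : (volume : Measure (Vec d)) N' = 0 := by
    rw [hN', (Measure.measurePreserving_neg (volume : Measure (Vec d))).measure_preimage
      (measurableSet_toMeasurable _ _).nullMeasurableSet, measure_toMeasurable, hN]
  have hc0 : Continuous fun k : Vec d => k + len k • (-σ) :=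
    continuous_id.add (continuous_len.smul continuous_const)
  have hc : Continuous fun k : Vec d => (1 / 2 : ℝ) • (k + len k • (-σ)) :=
    (continuous_const_smul (1 / 2 : ℝ)).comp hc0
  obtain ⟨A, hA⟩ : ∃ A : Set (Vec d), A = (fun k : Vec d => (1 / 2 : ℝ) • (k + len k • (-σ))) ⁻¹' N' :=
    ⟨_, rfl⟩
  have hAm : MeasurableSet A := by
    rw [hA]
    exact hNm.preimage hc.measurable
  have hsub : {V | (1 / 2 : ℝ) • (len V • σ - V) ∈ N} ⊆ A := by
    intro V hV
    rw [hA, hN']
    refine subset_toMeasurable _ _ ?_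
    have e1 : -((1 / 2 : ℝ) • (V + len V • (-σ))) = (1 / 2 : ℝ) • (len V • σ - V) := by
      module
    show -((1 / 2 : ℝ) • (V + len V • (-σ))) ∈ N
    rw [e1]
    exact hV
  refine measure_mono_null hsub ?_
  have h1 := Pool.Agent.H82.BK.cv hd hσ' (F := A.indicator fun _ => (1 : ℝ≥0∞))
    (measurable_const.indicator hAm)
  rw [lintegral_indicator hAm, lintegral_const, one_mul, Measure.restrict_apply_univ] at h1
  rw [h1]
  have hS : MeasurableSet {m : Vec d | 0 < dot m (-σ)} := by
    have h2 : Continuous fun m : Vec d => dot m (-σ) := by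
      unfold dot
      fun_prop
    exact (isOpen_lt continuous_const h2).measurableSet
  refine (lintegral_congr_ae ?_).trans lintegral_zero
  have h3 : ∀ᵐ m ∂(volume : Measure (Vec d)), m ∉ N' := measure_eq_zero_iff_ae_notMem.1 hN0
  filter_upwards [ae_restrict_mem hS, ae_restrict_of_ae h3] with m hm hmN
  have h4 : Pool.Agent.H82.BK.kap (-σ) m ∉ A := by
    rw [hA]
    show (1 / 2 : ℝ) • (Pool.Agent.H82.BK.kap (-σ) m + len (Pool.Agent.H82.BK.kap (-σ) m) • (-σ)) ∉ N'
    rw [Pool.Agent.H82.BK.kap_left hσ' hm]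
    exact hmN
  rw [indicator_of_notMem h4, zero_mul]

theorem push (hd : 2 ≤ d) {ε : ℝ} (hε : 0 < ε) : ∃ δ > 0, ∀ z : Vec d, ‖z‖ ≤ δ →
    ∀ (B : ℝ) (R : Vec d → ℝ), Continuous R → (∀ ζ, |R ζ| ≤ B) →
      |∫ q : Vec d × Vec d, wg q.1 * (R ((1 / 2 : ℝ) • (len q.1 • q.2 - q.1) - z) -
        R ((1 / 2 : ℝ) • (len q.1 • q.2 - q.1))) ∂((volume : Measure (Vec d)).prod (surf d))| ≤
          ε * B := by
  have hfin := Push_fin (d := d)
  obtain ⟨Θ, hΘ⟩ : ∃ Θ : Vec d × Vec d → Vec d, Θ = fun q => (1 / 2 : ℝ) • (len q.1 • q.2 - q.1) :=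
    ⟨_, rfl⟩
  have hΘc : Continuous Θ := by
    rw [hΘ]
    exact Push_th
  obtain ⟨P, hP⟩ : ∃ P : Measure (Vec d), P = (Push_mu d).map Θ := ⟨_, rfl⟩
  have hPf : IsFiniteMeasure P := by
    rw [hP]
    infer_instance
  have hac : P ≪ (volume : Measure (Vec d)) := by
    refine Measure.AbsolutelyContinuous.mk fun N hNm hN => ?_
    rw [hP, Measure.map_apply hΘc.measurable hNm]
    have hsf : IsFiniteMeasure ((volume : Measure (Vec d)).withDensity fun v =>
        ENNReal.ofReal (wg v)) := isFiniteMeasure_withDensity_ofReal Push_wg.hasFiniteIntegral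
    unfold Push_mu
    rw [Measure.prod_apply_symm (hNm.preimage hΘc.measurable)]
    refine (lintegral_congr_ae ?_).trans lintegral_zero
    filter_upwards [surf_ae (d := d)] with σ hσ
    refine (withDensity_absolutelyContinuous _ _) ?_
    have h1 := push_ac hd hσ hN
    rw [hΘ]
    exact h1
  obtain ⟨h, hh⟩ : ∃ h : Vec d → ℝ, h = fun v => (P.rnDeriv volume v).toReal := ⟨_, rfl⟩
  have hi : Integrable h := by
    rw [hh]
    exact Measure.integrable_toReal_rnDeriv
  obtain ⟨δ, hδ, hδ'⟩ := transl_L1 hi hε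
  refine ⟨δ, hδ, fun z hz B R hR hB => ?_⟩
  have hB0 : 0 ≤ B := (abs_nonneg _).trans (hB 0)
  have hc1 : Continuous fun ζ : Vec d => R (ζ - z) := hR.comp (continuous_id.sub continuous_const)
  have e1 : ∫ q : Vec d × Vec d, wg q.1 * (R ((1 / 2 : ℝ) • (len q.1 • q.2 - q.1) - z) -
      R ((1 / 2 : ℝ) • (len q.1 • q.2 - q.1))) ∂((volume : Measure (Vec d)).prod (surf d)) =
      ∫ ζ, h ζ * (R (ζ - z) - R ζ) := by
    rw [← Push_int (fun q => R ((1 / 2 : ℝ) • (len q.1 • q.2 - q.1) - z) -
      R ((1 / 2 : ℝ) • (len q.1 • q.2 - q.1)))]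
    have e2 : ∫ ζ, (R (ζ - z) - R ζ) ∂P = ∫ q, (R (Θ q - z) - R (Θ q)) ∂(Push_mu d) := by
      rw [hP]
      exact integral_map hΘc.aemeasurable (hc1.sub hR).aestronglyMeasurable
    have e3 := integral_rnDeriv_smul hac (f := fun ζ : Vec d => R (ζ - z) - R ζ)
    rw [hΘ] at e2
    rw [← e2, ← e3, hh]
    rfl
  have hbd : ∀ (g : Vec d → ℝ) (k : Vec d → ℝ), Integrable k → Continuous g → (∀ v, |g v| ≤ B) →
      Integrable fun v => k v * g v := by
    intro g k hk hg hgB
    refine Integrable.mono' (hk.norm.mul_const B) (hk.aestronglyMeasurable.mul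
      hg.aestronglyMeasurable) (Eventually.of_forall fun v => ?_)
    rw [norm_mul, Real.norm_eq_abs (g v)]
    exact mul_le_mul_of_nonneg_left (hgB v) (norm_nonneg _)
  have i1 : Integrable fun ζ : Vec d => h ζ * R (ζ - z) := hbd _ h hi hc1 fun v => hB _
  have i2 : Integrable fun ζ : Vec d => h ζ * R ζ := hbd _ h hi hR hB
  have hi3 : Integrable fun ζ : Vec d => h (ζ + z) := hi.comp_add_right z
  have i3 : Integrable fun ζ : Vec d => h (ζ + z) * R ζ := hbd R (fun ζ => h (ζ + z)) hi3 hR hB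
  have e4 : ∫ ζ, h ζ * (R (ζ - z) - R ζ) = ∫ ζ, (h (ζ + z) - h ζ) * R ζ := by
    have a1 : ∫ ζ, h ζ * (R (ζ - z) - R ζ) = (∫ ζ, h ζ * R (ζ - z)) - ∫ ζ, h ζ * R ζ := by
      rw [← integral_sub i1 i2]
      refine integral_congr_ae (Eventually.of_forall fun ζ => ?_)
      show h ζ * (R (ζ - z) - R ζ) = h ζ * R (ζ - z) - h ζ * R ζ
      ring
    have a2 : ∫ ζ, (h (ζ + z) - h ζ) * R ζ = (∫ ζ, h (ζ + z) * R ζ) - ∫ ζ, h ζ * R ζ := by
      rw [← integral_sub i3 i2]
      refine integral_congr_ae (Eventually.of_forall fun ζ => ?_)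
      show (h (ζ + z) - h ζ) * R ζ = h (ζ + z) * R ζ - h ζ * R ζ
      ring
    have a3 : ∫ ζ, h (ζ + z) * R ζ = ∫ ζ, h ζ * R (ζ - z) := by
      have a4 := integral_add_right_eq_self (μ := (volume : Measure (Vec d)))
        (fun ζ => h ζ * R (ζ - z)) z
      rw [← a4]
      refine integral_congr_ae (Eventually.of_forall fun ζ => ?_)
      show h (ζ + z) * R ζ = h (ζ + z) * R (ζ + z - z)
      rw [add_sub_cancel_right]
    rw [a1, a2, a3]
  rw [e1, e4]
  calc |∫ ζ, (h (ζ + z) - h ζ) * R ζ| ≤ ∫ ζ, |(h (ζ + z) - h ζ) * R ζ| :=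
        abs_integral_le_integral_abs
    _ ≤ ∫ ζ, |h (ζ + z) - h ζ| * B := by
        refine integral_mono_of_nonneg (Eventually.of_forall fun _ => abs_nonneg _)
          ((hi3.sub hi).abs.mul_const B) (Eventually.of_forall fun ζ => ?_)
        show |(h (ζ + z) - h ζ) * R ζ| ≤ |h (ζ + z) - h ζ| * B
        rw [abs_mul]
        exact mul_le_mul_of_nonneg_left (hB ζ) (abs_nonneg _)
    _ = (∫ ζ, |h (ζ + z) - h ζ|) * B := integral_mul_const _ _
    _ ≤ ε * B := mul_le_mul_of_nonneg_right (hδ' z hz) hB0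

end Pool.Agent.H37.SA
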