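import Pool.Agent.H37.LT.PrA

/-!
# Module WeakF: the weak form of the functional equation, and the class of `kt G`

* `weakF`, `c = √(∫ gau gau dmu3)` (`gg_int`). `k = kt G`, `k(v')k(w') = √(G(v')G(w')) gau(v) gau(w)` for `nsq σ = 1` (`energy_post`, `Real.sqrt_mul`), so `k(v)k(w) - k(v')k(w') = -rG gau gau`. By `coll_preserving` (`integral_comp_mp`, `post_post`, `post'_post`, `ae_good`) `∫ k(v)k(w) Ψ(v',w') = ∫ k(v')k(w') Ψ(v,w)`, hence
  `∫ k k (Ψ - Ψ') = ∫ (k(v)k(w) - k(v')k(w')) Ψ(v,w) = -∫ rG gau gau Ψ`, and Cauchy-Schwarz: `|..| ≤ (∫ rG² gau gau)^(1/2) (∫ Ψ² gau gau)^(1/2) ≤ √(dv G) c B` (`B ≥ 0`; for instance `2|xy| ≤ t x² + y²/t` for all `t > 0`, or `integral_mul_le_Lp_mul_Lq`, or `L2` inner product; the pointwise form with `t = B c/√dv` and the case `dv = 0` separately; `rG² ≤ 4 M²` is bounded, so everything is integrable).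
* `kt_KC`: `K = √(max (Cl 0) 0)`. Mass: `∫ G ≥ m` and `G ≤ Cl(d+2) (1+‖v‖)^(-(d+2))`, so for `R` large `∫_{‖v‖ ≤ R} G ≥ m/2` (`∫_{‖v‖>R} G ≤ C (1+R)^(-1) ∫ wt`), on that ball `√G gau ≥ (G/K') exp(-d R²)`, `K' = √(Cl 0)`: `√G ≥ G/√(Cl 0)` as `G ≤ Cl 0`; `nsq v ≤ d ‖v‖²` (`sq_le`). `c = m exp(-d R²)/(2 (K+1))`. If `Cl 0 ≤ 0` there is no `G` (then `G = 0`, mass `0 < m`): any constants.
-/

set_option autoImplicit false

open MeasureTheory Set Filter Topology Pool.Agent.H25.Kin Pool.Agent.H37.LT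
open Pool.Agent.H15.AV (gau UNice)

namespace Pool.Agent.H37.SA

variable {d : ℕ}

private lemma WeakF_gauc : Continuous (gau : Vec d → ℝ) := by
  unfold gau
  exact Real.continuous_exp.comp continuous_sq.neg

private lemma WeakF_gau0 (v : Vec d) : 0 < gau v := by
  unfold gau
  exact Real.exp_pos _

private lemma WeakF_gau_int : Integrable (gau : Vec d → ℝ) := by
  have h : (gau : Vec d → ℝ) = fun v : Vec d => ∏ i, Real.exp (-1 * (v i) ^ 2) := by
    funext v
    unfold gau nsq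
    rw [← Real.exp_sum]
    congr 1
    simp
  rw [h]
  exact MeasureTheory.Integrable.fintype_prod (f := fun (_ : Fin d) (x : ℝ) => Real.exp (-1 * x ^ 2))
    (fun i => integrable_exp_neg_mul_sq one_pos)

private lemma WeakF_ktc {G : Vec d → ℝ} (hG : Continuous G) : Continuous (kt G) := by
  unfold kt
  exact (Real.continuous_sqrt.comp hG).mul WeakF_gauc

private lemma WeakF_ktpost {G : Vec d → ℝ} (hG0 : ∀ v, 0 ≤ G v) {v w σ : Vec d}
    (hσ : nsq σ = 1) :
    kt G (post v w σ) * kt G (post' v w σ) =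
      Real.sqrt (G (post v w σ) * G (post' v w σ)) * (gau v * gau w) := by
  have e : gau (post v w σ) * gau (post' v w σ) = gau v * gau w := by
    unfold gau
    rw [← Real.exp_add, ← Real.exp_add]
    congr 1
    have := energy_post (v := v) (w := w) hσ
    linarith
  unfold kt
  rw [Real.sqrt_mul (hG0 _), ← e]
  ring

theorem weakF (hd : 1 ≤ d) : ∃ c : ℝ, 0 ≤ c ∧ ∀ (M : ℝ) (G : Vec d → ℝ), Continuous G →
    (∀ v, 0 ≤ G v) → (∀ v, G v ≤ M) → Fw (c * Real.sqrt (dv G)) (kt G) := by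
  set Z : ℝ := ∫ p, gau p.1 * gau p.2.1 ∂(mu3 d) with hZ
  have hgi := gg_int (d := d) hd
  have hg0 : ∀ p : Vec d × Vec d × Vec d, 0 ≤ gau p.1 * gau p.2.1 := fun p =>
    (mul_pos (WeakF_gau0 _) (WeakF_gau0 _)).le
  have hZ0 : 0 ≤ Z := integral_nonneg hg0
  refine ⟨Real.sqrt Z, Real.sqrt_nonneg _, fun M G hG hG0 hGM B Ψ hΨ hB => ?_⟩
  have hM0 : 0 ≤ M := (hG0 0).trans (hGM 0)
  have hB0 : 0 ≤ B := (abs_nonneg _).trans (hB (0, 0))
  have hs : ∀ v w : Vec d, Real.sqrt (G v * G w) ≤ M := fun v w => by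
    rw [Real.sqrt_le_left hM0]
    rw [pow_two]
    exact mul_le_mul (hGM v) (hGM w) (hG0 w) hM0
  have hr : ∀ p : Vec d × Vec d × Vec d, |rG G p| ≤ M := fun p => by
    unfold rG
    rw [abs_le]
    have h1 := hs (post p.1 p.2.1 p.2.2) (post' p.1 p.2.1 p.2.2)
    have h2 := hs p.1 p.2.1
    have h3 := Real.sqrt_nonneg (G (post p.1 p.2.1 p.2.2) * G (post' p.1 p.2.1 p.2.2))
    have h4 := Real.sqrt_nonneg (G p.1 * G p.2.1)
    constructor <;> linarith
  have hc1 : Continuous fun p : Vec d × Vec d × Vec d => p.1 := continuous_fst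
  have hc2 : Continuous fun p : Vec d × Vec d × Vec d => p.2.1 := continuous_fst.comp continuous_snd
  have hrc : Continuous (rG G) := by
    unfold rG
    exact (Real.continuous_sqrt.comp ((hG.comp continuous_post).mul (hG.comp continuous_post'))).sub
      (Real.continuous_sqrt.comp ((hG.comp hc1).mul (hG.comp hc2)))
  have hgc : Continuous fun p : Vec d × Vec d × Vec d => gau p.1 * gau p.2.1 :=
    (WeakF_gauc.comp hc1).mul (WeakF_gauc.comp hc2)
  have hΨ1 : Continuous fun p : Vec d × Vec d × Vec d => Ψ (p.1, p.2.1) :=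
    hΨ.comp (hc1.prodMk hc2)
  have hΨ2 : Continuous fun p : Vec d × Vec d × Vec d =>
      Ψ (post p.1 p.2.1 p.2.2, post' p.1 p.2.1 p.2.2) :=
    hΨ.comp (continuous_post.prodMk continuous_post')
  have hkc := WeakF_ktc hG
  have hkk : Continuous fun p : Vec d × Vec d × Vec d => kt G p.1 * kt G p.2.1 :=
    (hkc.comp hc1).mul (hkc.comp hc2)
  have hkk' : Continuous fun p : Vec d × Vec d × Vec d =>
      kt G (post p.1 p.2.1 p.2.2) * kt G (post' p.1 p.2.1 p.2.2) :=
    (hkc.comp continuous_post).mul (hkc.comp continuous_post')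
  -- bounds
  have hkkb : ∀ p : Vec d × Vec d × Vec d, |kt G p.1 * kt G p.2.1| ≤ M * (gau p.1 * gau p.2.1) :=
    fun p => by
    have e : kt G p.1 * kt G p.2.1 = Real.sqrt (G p.1 * G p.2.1) * (gau p.1 * gau p.2.1) := by
      unfold kt
      rw [Real.sqrt_mul (hG0 _)]
      ring
    rw [e, abs_of_nonneg (mul_nonneg (Real.sqrt_nonneg _) (hg0 p))]
    exact mul_le_mul_of_nonneg_right (hs _ _) (hg0 p)
  have hdom : Integrable (fun p : Vec d × Vec d × Vec d => M * (gau p.1 * gau p.2.1) * B) (mu3 d) :=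
    (hgi.const_mul M).mul_const B
  have i1 : Integrable (fun p : Vec d × Vec d × Vec d => kt G p.1 * kt G p.2.1 * Ψ (p.1, p.2.1))
      (mu3 d) := by
    refine hdom.mono' (hkk.mul hΨ1).aestronglyMeasurable (Eventually.of_forall fun p => ?_)
    rw [Real.norm_eq_abs, abs_mul]
    exact mul_le_mul (hkkb p) (hB _) (abs_nonneg _) (mul_nonneg hM0 (hg0 p))
  have i2 : Integrable (fun p : Vec d × Vec d × Vec d => kt G p.1 * kt G p.2.1 *
      Ψ (post p.1 p.2.1 p.2.2, post' p.1 p.2.1 p.2.2)) (mu3 d) := by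
    refine hdom.mono' (hkk.mul hΨ2).aestronglyMeasurable (Eventually.of_forall fun p => ?_)
    rw [Real.norm_eq_abs, abs_mul]
    exact mul_le_mul (hkkb p) (hB _) (abs_nonneg _) (mul_nonneg hM0 (hg0 p))
  have hgood := ae_good (d := d) hd
  have i3 : Integrable (fun p : Vec d × Vec d × Vec d =>
      kt G (post p.1 p.2.1 p.2.2) * kt G (post' p.1 p.2.1 p.2.2) * Ψ (p.1, p.2.1)) (mu3 d) := by
    refine hdom.mono' (hkk'.mul hΨ1).aestronglyMeasurable ?_
    filter_upwards [hgood] with p hp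
    rw [Real.norm_eq_abs, abs_mul]
    refine mul_le_mul ?_ (hB _) (abs_nonneg _) (mul_nonneg hM0 (hg0 p))
    rw [WeakF_ktpost hG0 hp.2, abs_of_nonneg (mul_nonneg (Real.sqrt_nonneg _) (hg0 p))]
    exact mul_le_mul_of_nonneg_right (hs _ _) (hg0 p)
  -- the change of variables
  have e1 : ∫ p, kt G p.1 * kt G p.2.1 *
      Ψ (post p.1 p.2.1 p.2.2, post' p.1 p.2.1 p.2.2) ∂(mu3 d) =
      ∫ p, kt G (post p.1 p.2.1 p.2.2) * kt G (post' p.1 p.2.1 p.2.2) * Ψ (p.1, p.2.1) ∂(mu3 d) := by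
    have hcm := integral_comp_mp (coll_preserving hd) (F := fun p : Vec d × Vec d × Vec d =>
      kt G (post p.1 p.2.1 p.2.2) * kt G (post' p.1 p.2.1 p.2.2) * Ψ (p.1, p.2.1))
      (hkk'.mul hΨ1).measurable
    rw [← hcm]
    refine integral_congr_ae ?_
    filter_upwards [hgood] with p hp
    simp only [coll]
    rw [post_post hp.1 hp.2, post'_post hp.1 hp.2]
  have e2 : ∫ p, kt G p.1 * kt G p.2.1 * (Ψ (p.1, p.2.1) -
      Ψ (post p.1 p.2.1 p.2.2, post' p.1 p.2.1 p.2.2)) ∂(mu3 d) =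
      ∫ p, -(rG G p * (gau p.1 * gau p.2.1) * Ψ (p.1, p.2.1)) ∂(mu3 d) := by
    have : ∫ p, kt G p.1 * kt G p.2.1 * (Ψ (p.1, p.2.1) -
        Ψ (post p.1 p.2.1 p.2.2, post' p.1 p.2.1 p.2.2)) ∂(mu3 d) =
        (∫ p, kt G p.1 * kt G p.2.1 * Ψ (p.1, p.2.1) ∂(mu3 d)) -
        ∫ p, kt G p.1 * kt G p.2.1 *
          Ψ (post p.1 p.2.1 p.2.2, post' p.1 p.2.1 p.2.2) ∂(mu3 d) := by
      rw [← integral_sub i1 i2]
      refine integral_congr_ae (Eventually.of_forall fun p => ?_)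
      simp only
      ring
    rw [this, e1, ← integral_sub i1 i3]
    refine integral_congr_ae ?_
    filter_upwards [hgood] with p hp
    rw [WeakF_ktpost hG0 hp.2]
    have e : kt G p.1 * kt G p.2.1 = Real.sqrt (G p.1 * G p.2.1) * (gau p.1 * gau p.2.1) := by
      unfold kt
      rw [Real.sqrt_mul (hG0 _)]
      ring
    rw [e]
    unfold rG
    ring
  rw [e2]
  -- Cauchy-Schwarz
  set A : ℝ := ∫ p, |rG G p| * (gau p.1 * gau p.2.1) ∂(mu3 d) with hA
  have ia : Integrable (fun p : Vec d × Vec d × Vec d => |rG G p| * (gau p.1 * gau p.2.1))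
      (mu3 d) := by
    refine (hgi.const_mul M).mono' (hrc.abs.mul hgc).aestronglyMeasurable
      (Eventually.of_forall fun p => ?_)
    rw [Real.norm_eq_abs, abs_mul, abs_abs, abs_of_nonneg (hg0 p)]
    exact mul_le_mul_of_nonneg_right (hr p) (hg0 p)
  have ib : Integrable (fun p : Vec d × Vec d × Vec d => rG G p ^ 2 * (gau p.1 * gau p.2.1))
      (mu3 d) := by
    refine (hgi.const_mul (M ^ 2)).mono' ((hrc.pow 2).mul hgc).aestronglyMeasurable
      (Eventually.of_forall fun p => ?_)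
    rw [Real.norm_eq_abs, abs_mul, abs_of_nonneg (hg0 p), abs_of_nonneg (sq_nonneg _)]
    refine mul_le_mul_of_nonneg_right ?_ (hg0 p)
    rw [← sq_abs]
    exact pow_le_pow_left₀ (abs_nonneg _) (hr p) 2
  have hA0 : 0 ≤ A := integral_nonneg fun p => mul_nonneg (abs_nonneg _) (hg0 p)
  have hdv0 : 0 ≤ dv G := integral_nonneg fun p => mul_nonneg (sq_nonneg _) (hg0 p)
  have hq : ∀ t : ℝ, 0 ≤ Z * (t * t) + (-2 * A) * t + dv G := fun t => by
    have h0 : 0 ≤ ∫ p, (t - |rG G p|) ^ 2 * (gau p.1 * gau p.2.1) ∂(mu3 d) :=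
      integral_nonneg fun p => mul_nonneg (sq_nonneg _) (hg0 p)
    have h1 : ∫ p, (t - |rG G p|) ^ 2 * (gau p.1 * gau p.2.1) ∂(mu3 d) =
        ∫ p, ((t * t) * (gau p.1 * gau p.2.1) + (-2 * t) * (|rG G p| * (gau p.1 * gau p.2.1))) +
          rG G p ^ 2 * (gau p.1 * gau p.2.1) ∂(mu3 d) := by
      refine integral_congr_ae (Eventually.of_forall fun p => ?_)
      simp only
      rw [← sq_abs (rG G p)]
      ring
    have h2 : ∫ p, ((t * t) * (gau p.1 * gau p.2.1) +
        (-2 * t) * (|rG G p| * (gau p.1 * gau p.2.1))) +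
          rG G p ^ 2 * (gau p.1 * gau p.2.1) ∂(mu3 d) =
        (∫ p, (t * t) * (gau p.1 * gau p.2.1) +
        (-2 * t) * (|rG G p| * (gau p.1 * gau p.2.1)) ∂(mu3 d)) +
          ∫ p, rG G p ^ 2 * (gau p.1 * gau p.2.1) ∂(mu3 d) :=
      integral_add ((hgi.const_mul (t * t)).add (ia.const_mul (-2 * t))) ib
    have h3 : ∫ p, (t * t) * (gau p.1 * gau p.2.1) +
        (-2 * t) * (|rG G p| * (gau p.1 * gau p.2.1)) ∂(mu3 d) =
        (∫ p, (t * t) * (gau p.1 * gau p.2.1) ∂(mu3 d)) +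
        ∫ p, (-2 * t) * (|rG G p| * (gau p.1 * gau p.2.1)) ∂(mu3 d) :=
      integral_add (hgi.const_mul (t * t)) (ia.const_mul (-2 * t))
    rw [h1, h2, h3, integral_const_mul, integral_const_mul] at h0
    have e : Z * (t * t) + (-2 * A) * t + dv G =
        (t * t) * Z + (-2 * t) * A + dv G := by ring
    rw [e]
    exact h0
  have hdisc := discrim_le_zero hq
  unfold discrim at hdisc
  have hAA : A ^ 2 ≤ Z * dv G := by nlinarith
  have hA1 : A ≤ Real.sqrt Z * Real.sqrt (dv G) := by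
    rw [← Real.sqrt_mul hZ0]
    exact Real.le_sqrt_of_sq_le hAA
  calc |∫ p, -(rG G p * (gau p.1 * gau p.2.1) * Ψ (p.1, p.2.1)) ∂(mu3 d)|
      ≤ ∫ p, |rG G p| * (gau p.1 * gau p.2.1) * B ∂(mu3 d) := by
        rw [← Real.norm_eq_abs]
        refine norm_integral_le_of_norm_le (ia.mul_const B) (Eventually.of_forall fun p => ?_)
        rw [norm_neg, Real.norm_eq_abs, abs_mul, abs_mul, abs_of_nonneg (hg0 p)]
        exact mul_le_mul_of_nonneg_left (hB _) (mul_nonneg (abs_nonneg _) (hg0 p))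
    _ = A * B := by rw [integral_mul_const]
    _ ≤ Real.sqrt Z * Real.sqrt (dv G) * B := mul_le_mul_of_nonneg_right hA1 hB0

theorem kt_KC (d : ℕ) (Cl : ℕ → ℝ) {m : ℝ} (hm : 0 < m) : ∃ K c : ℝ, 0 ≤ K ∧ 0 < c ∧
    ∀ G : Vec d → ℝ, SC Cl m G → KC K c (kt G) := by
  set K : ℝ := Real.sqrt (max (Cl 0) 0) with hK
  have hK0 : 0 ≤ K := Real.sqrt_nonneg _
  set C : ℝ := max (Cl (d + 2)) 1 with hC
  have hC1 : 1 ≤ C := le_max_right _ _
  set W : ℝ := ∫ v, wt d v with hW
  have hW0 : 0 ≤ W := integral_nonneg wt_nonneg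
  set R : ℝ := 2 * C * W / m with hR
  have hR0 : 0 ≤ R := by positivity
  have hRm : C / (1 + R) * W ≤ m / 2 := by
    have h1 : (0 : ℝ) < 1 + R := by linarith
    rw [div_mul_eq_mul_div, div_le_div_iff₀ h1 (by norm_num)]
    have h2 : R * m = 2 * C * W := by
      rw [hR]
      field_simp
    nlinarith
  set E : ℝ := Real.exp (d * R ^ 2) with hE
  have hE0 : 0 < E := Real.exp_pos _
  have hKE : 0 < (K + 1) * E := by positivity
  refine ⟨K, m / (2 * ((K + 1) * E)), hK0, by positivity, fun G hG => ?_⟩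
  have hG0 : ∀ v, G v ≤ Cl 0 := fun v => by
    have := hG.le 0 v
    simpa using this
  have hsK : ∀ v, Real.sqrt (G v) ≤ K := fun v =>
    Real.sqrt_le_sqrt ((hG0 v).trans (le_max_left _ _))
  have hGd : ∀ v, G v ≤ C * (1 + ‖v‖)⁻¹ * wt d v := fun v => by
    have h1 := hG.le (d + 2) v
    have h2 : (0 : ℝ) < 1 + ‖v‖ := by positivity
    unfold wt
    have h3 : C * (1 + ‖v‖)⁻¹ * ((1 + ‖v‖) ^ (d + 1))⁻¹ = C / (1 + ‖v‖) ^ (d + 2) := by
      rw [pow_succ _ (d + 1), div_eq_mul_inv, mul_inv]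
      ring
    rw [h3, le_div_iff₀ (by positivity), mul_comm]
    exact h1.trans (le_max_left _ _)
  have hGi : Integrable G := by
    refine (integrable_wt.const_mul C).mono' hG.cont.aestronglyMeasurable
      (Eventually.of_forall fun v => ?_)
    rw [Real.norm_eq_abs, abs_of_nonneg (hG.nn v)]
    refine (hGd v).trans ?_
    refine mul_le_mul_of_nonneg_right ?_ (wt_nonneg v)
    have h2 : (1 : ℝ) ≤ 1 + ‖v‖ := by
      have := norm_nonneg v
      linarith
    have h3 : (1 + ‖v‖)⁻¹ ≤ 1 := inv_le_one_of_one_le₀ h2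
    nlinarith
  have hk0 : ∀ v, 0 ≤ kt G v := fun v => mul_nonneg (Real.sqrt_nonneg _) (WeakF_gau0 v).le
  have hkle : ∀ v, kt G v ≤ K * gau v := fun v =>
    mul_le_mul_of_nonneg_right (hsK v) (WeakF_gau0 v).le
  have hki : Integrable (kt G) := by
    refine (WeakF_gau_int.const_mul K).mono' (WeakF_ktc hG.cont).aestronglyMeasurable
      (Eventually.of_forall fun v => ?_)
    rw [Real.norm_eq_abs, abs_of_nonneg (hk0 v)]
    exact hkle v
  have hpt : ∀ v, G v ≤ (K + 1) * E * kt G v + C / (1 + R) * wt d v := fun v => by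
    have hw0 := wt_nonneg v
    rcases le_total ‖v‖ R with h | h
    · have h1 : 1 ≤ E * gau v := by
        rw [hE]
        unfold gau
        rw [← Real.exp_add]
        apply Real.one_le_exp
        have h2 := sq_le v
        have h3 : ‖v‖ ^ 2 ≤ R ^ 2 := pow_le_pow_left₀ (norm_nonneg v) h 2
        have h4 : (0 : ℝ) ≤ d := Nat.cast_nonneg d
        nlinarith
      have h5 : G v = Real.sqrt (G v) * Real.sqrt (G v) := (Real.mul_self_sqrt (hG.nn v)).symm
      have h6 := Real.sqrt_nonneg (G v)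
      have h7 : G v ≤ (K + 1) * Real.sqrt (G v) := by
        conv_lhs => rw [h5]
        exact mul_le_mul_of_nonneg_right ((hsK v).trans (by linarith)) h6
      have h8 : (K + 1) * Real.sqrt (G v) ≤ (K + 1) * E * kt G v := by
        unfold kt
        have e : (K + 1) * E * (Real.sqrt (G v) * gau v) =
          (K + 1) * Real.sqrt (G v) * (E * gau v) := by ring
        rw [e]
        exact le_mul_of_one_le_right (by positivity) h1
      have h9 : 0 ≤ C / (1 + R) * wt d v := by positivity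
      linarith
    · have h1 : C * (1 + ‖v‖)⁻¹ ≤ C / (1 + R) := by
        rw [div_eq_mul_inv]
        refine mul_le_mul_of_nonneg_left ?_ (by linarith)
        exact inv_anti₀ (by linarith) (by linarith)
      have h2 := mul_le_mul_of_nonneg_right h1 hw0
      have h3 : 0 ≤ (K + 1) * E * kt G v := mul_nonneg hKE.le (hk0 v)
      have h4 := hGd v
      linarith
  refine ⟨WeakF_ktc hG.cont, hk0, hkle, ?_⟩
  have hint : ∫ v, G v ≤ (K + 1) * E * (∫ v, kt G v) + C / (1 + R) * W := by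
    rw [hW, ← integral_const_mul, ← integral_const_mul, ← integral_add (hki.const_mul _)
      (integrable_wt.const_mul _)]
    exact integral_mono hGi ((hki.const_mul _).add (integrable_wt.const_mul _)) hpt
  have hmm := hG.mass
  rw [div_le_iff₀ (by positivity)]
  nlinarith

end Pool.Agent.H37.SA
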